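import Pool.Agent.Work.MP_814647_an.TH.Final

/-!
# No cycles for Omega-stable circle extensions: definitions

`Ext` collects the properties of an Omega-stable circle extension `f` which are used: `f` covers the
base map `A` (periodic shadowing, expansive on its periodic points), `ℒ` are the normalised lifts of
`f` along the circles, `Dm` is the derivative along the circles, and no map `exp(it).f`, `|t| < τ`,
has neutral or tangential periodic points along the circles. All of it is landed for Omega-stable `f`
(`index_main` in `Idx9.lean`).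
-/

set_option autoImplicit false

open Set Filter Topology Function

noncomputable section

namespace Pool.Agent.OmegaStability.NC

open Dens

universe u v

/-- The standing hypotheses on the circle extension `f`. -/
structure Ext {M : Type u} {B : Type v} [MetricSpace M] [MetricSpace B] [MulAction Circle M]
    (π : M → B) (A : B → B) (f f' : M → M) (ℒ : M → ℝ → ℝ) (Dm : M → ℝ) (τ : ℝ) : Prop where
  act : Continuous fun p : Circle × M => p.1 • p.2
  free : ∀ (z : Circle) (y : M), z • y = y → z = 1
  proj : Continuous π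
  surj : Surjective π
  fibre : ∀ y y' : M, π y = π y' ↔ ∃ z : Circle, z • y = y'
  base : Continuous A
  shadowing : PeriodicShadowing A
  expansive : ExpansiveOnPeriodic A
  cont : Continuous f
  cont' : Continuous f'
  left : ∀ x, f' (f x) = x
  right : ∀ x, f (f' x) = x
  cov : ∀ y, π (f y) = A (π y)
  lift : NLift f ℒ
  contD : Continuous Dm
  der : ∀ (e e' : M) (L : ℝ → ℝ), Continuous L → Monotone L →
    (∀ θ : ℝ, f (Circle.exp θ • e) = Circle.exp (L θ) • e') →
    ∀ θ, HasDerivAt L (Dm (Circle.exp θ • e)) θ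
  pos : 0 < τ
  notan : ∀ (e : M) (n : ℕ) (c : ℝ) (G : ℝ → ℝ → ℝ), 0 < n → RetMap f e n c G → NoTangency G τ
  mult : ∀ (e : M) (n : ℕ) (c : ℝ) (G : ℝ → ℝ → ℝ), 0 < n → RetMap f e n c G →
    ∀ t, |t| < τ → ∀ θ, G t θ = θ → ∀ d, HasDerivAt (G t) d θ → d ≠ 1

/-- The map `f` followed by the rotation by the angle `s`. -/
def rot {M : Type u} [MulAction Circle M] (f : M → M) (s : ℝ) : M → M :=
  fun y => Circle.exp s • f y

/-- The derivative of `F^n` along the circle of `y`, if `Dm` is the derivative of `F` along the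
circles. -/
def pm {M : Type u} (Dm : M → ℝ) (F : M → M) (y : M) (n : ℕ) : ℝ :=
  ∏ i ∈ Finset.range n, Dm (F^[i] y)

/-- A closed chain of points of `M`, indexed cyclically, each mapped by `f` into the circle of the
next one; `l j` is the lift of `f` from the circle of `e j` to the circle of `e (j+1)`. -/
structure Loop {M : Type u} [MulAction Circle M] (f : M → M) (ℒ : M → ℝ → ℝ) (N : ℕ) (e : ℕ → M)
    (l : ℕ → ℝ → ℝ) : Prop where
  pos : 0 < N
  pere : ∀ j, e (j + N) = e j
  perl : ∀ j, l (j + N) = l j
  form : ∃ c : ℕ → ℝ, ∀ j θ, l j θ = ℒ (e j) θ + c j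
  map : ∀ j (θ : ℝ), f (Circle.exp θ • e j) = Circle.exp (l j θ) • e (j + 1)

/-- The curves of fixed points of the return maps of a loop, one at each phase: `z i t` is fixed by
the return map at phase `i` and parameter `t`, the curve at phase `i` passes through `0` at a small
parameter, and all curves are increasing or all are decreasing. -/
structure Curve (N : ℕ) (l : ℕ → ℝ → ℝ) (τ ε : ℝ) (z : ℕ → ℝ → ℝ) : Prop where
  per : ∀ i, z (i + N) = z i
  cont : ∀ i, ContinuousOn (z i) (Ioo (-τ) τ)
  step : ∀ i, ∀ t ∈ Ioo (-τ) τ, z (i + 1) t = l i (z i t) + t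
  zero : ∀ i, ∃ s, |s| ≤ ε ∧ z i s = 0
  type : (∀ i, StrictMonoOn (z i) (Ioo (-τ) τ)) ∨ ∀ i, StrictAntiOn (z i) (Ioo (-τ) τ)

/-- `x₀` is a zero of `P x - x` with the sign of `σ` on the left and of `-σ` on the right, in
distance `ρ`: for `σ = 1` a contracting fixed point of `P`, for `σ = -1` an expanding one. -/
structure Cross (P : ℝ → ℝ) (σ x₀ ρ : ℝ) : Prop where
  fix : P x₀ = x₀
  left : ∀ x ∈ Ioo (x₀ - ρ) x₀, 0 < σ * (P x - x)
  right : ∀ x ∈ Ioo x₀ (x₀ + ρ), σ * (P x - x) < 0

end Pool.Agent.OmegaStability.NC
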