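import Pool.Agent.Work.MP_814647_an.NC.Stmts

/-!
# Item Bra: curves of fixed points of a cyclic sequence of lifts
-/

set_option autoImplicit false

open Set Filter Topology Function

namespace Pool.Agent.OmegaStability.NC

open Dens

namespace XBra

theorem orb_cont {l : ℕ → ℝ → ℝ} (hl : ∀ j, Continuous (l j)) (n : ℕ) :
    Continuous fun q : ℝ × ℝ => orb l q.1 n q.2 := by
  induction n with
  | zero => exact continuous_snd
  | succ n ih => exact ((hl n).comp ih).add continuous_fst

theorem orb_mono {l : ℕ → ℝ → ℝ} (hl : ∀ j, StrictMono (l j)) (t : ℝ) (n : ℕ) :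
    StrictMono (orb l t n) := by
  induction n with
  | zero => exact fun x y h => h
  | succ n ih =>
    intro x y h
    show l n (orb l t n x) + t < l n (orb l t n y) + t
    have := hl n (ih h)
    linarith

theorem orb_inc {l : ℕ → ℝ → ℝ} (hl : ∀ j, StrictMono (l j)) {t t' : ℝ} (h : t ≤ t') (x : ℝ) :
    ∀ n, orb l t n x ≤ orb l t' n x ∧ (0 < n → orb l t n x + (t' - t) ≤ orb l t' n x) := by
  intro n
  induction n with
  | zero => exact ⟨le_rfl, fun h => absurd h (lt_irrefl _)⟩
  | succ n ih =>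
    have h1 := (hl n).monotone ih.1
    have h2 : orb l t (n + 1) x + (t' - t) ≤ orb l t' (n + 1) x := by
      show l n (orb l t n x) + t + (t' - t) ≤ l n (orb l t' n x) + t'
      linarith
    exact ⟨by linarith, fun _ => h2⟩

theorem orb_per {l : ℕ → ℝ → ℝ} (hp : ∀ j θ, l j (θ + 2 * Real.pi) = l j θ + 2 * Real.pi) (t : ℝ)
    (n : ℕ) (x : ℝ) : orb l t n (x + 2 * Real.pi) = orb l t n x + 2 * Real.pi := by
  induction n with
  | zero => rfl
  | succ n ih =>
    show l n (orb l t n (x + 2 * Real.pi)) + t = l n (orb l t n x) + t + 2 * Real.pi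
    rw [ih, hp]
    ring

theorem orb_shift (l : ℕ → ℝ → ℝ) (t : ℝ) (n : ℕ) (x : ℝ) :
    orb (fun j => l (j + 1)) t n (l 0 x + t) = orb l t (n + 1) x := by
  induction n with
  | zero => rfl
  | succ n ih =>
    show l (n + 1) (orb (fun j => l (j + 1)) t n (l 0 x + t)) + t = l (n + 1) (orb l t (n + 1) x) + t
    rw [ih]

theorem orb_pos {l : ℕ → ℝ → ℝ} (hl : ∀ j, StrictMono (l j)) {ε : ℝ} (h : ∀ j, |l j 0| ≤ ε)
    (n : ℕ) : 0 ≤ orb l ε n 0 := by
  induction n with
  | zero => exact le_rfl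
  | succ n ih =>
    have h1 := (hl n).monotone ih
    have h2 := neg_le_of_abs_le (h n)
    show 0 ≤ l n (orb l ε n 0) + ε
    linarith

theorem orb_neg {l : ℕ → ℝ → ℝ} (hl : ∀ j, StrictMono (l j)) {ε : ℝ} (h : ∀ j, |l j 0| ≤ ε)
    (n : ℕ) : orb l (-ε) n 0 ≤ 0 := by
  induction n with
  | zero => exact le_rfl
  | succ n ih =>
    have h1 := (hl n).monotone ih
    have h2 := le_of_abs_le (h n)
    show l n (orb l (-ε) n 0) + -ε ≤ 0
    linarith

/-- the inverse of an increasing function -/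
theorem inv_mono (T : ℝ → ℝ) (hT : Continuous T) (τ α β : ℝ) (hab : α ≤ β)
    (hm : StrictMonoOn T (Icc α β)) (ha : T α ≤ -τ) (hb : τ ≤ T β) :
    ∃ z : ℝ → ℝ, (∀ t ∈ Ioo (-τ) τ, z t ∈ Ioo α β ∧ T (z t) = t) ∧
      ContinuousOn z (Ioo (-τ) τ) ∧ StrictMonoOn z (Ioo (-τ) τ) := by
  have hex : ∀ t, t ∈ Ioo (-τ) τ → ∃ x, x ∈ Ioo α β ∧ T x = t := by
    intro t ht
    obtain ⟨x, hx, hxt⟩ := intermediate_value_Icc hab hT.continuousOn
      (⟨by linarith [ht.1], by linarith [ht.2]⟩ : t ∈ Icc (T α) (T β))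
    refine ⟨x, ⟨lt_of_le_of_ne hx.1 ?_, lt_of_le_of_ne hx.2 ?_⟩, hxt⟩
    · rintro rfl
      linarith [ht.1]
    · rintro rfl
      linarith [ht.2]
  choose! z hz hzT using hex
  have hlt : ∀ t ∈ Ioo (-τ) τ, ∀ x ∈ Icc α β, T x < t → x < z t := by
    intro t ht x hx h
    by_contra h1
    push Not at h1
    have := hm.monotoneOn (Ioo_subset_Icc_self (hz t ht)) hx h1
    rw [hzT t ht] at this
    linarith
  have hgt : ∀ t ∈ Ioo (-τ) τ, ∀ x ∈ Icc α β, t < T x → z t < x := by
    intro t ht x hx h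
    by_contra h1
    push Not at h1
    have := hm.monotoneOn hx (Ioo_subset_Icc_self (hz t ht)) h1
    rw [hzT t ht] at this
    linarith
  refine ⟨z, fun t ht => ⟨hz t ht, hzT t ht⟩, ?_, ?_⟩
  · rw [Metric.continuousOn_iff]
    intro t ht ε hε
    have h1 := hz t ht
    set e := min (ε / 2) (min ((z t - α) / 2) ((β - z t) / 2)) with he
    have he0 : 0 < e := lt_min (by linarith) (lt_min (by linarith [h1.1]) (by linarith [h1.2]))
    have he1 : e ≤ ε / 2 := min_le_left _ _
    have he2 : e ≤ (z t - α) / 2 := (min_le_right _ _).trans (min_le_left _ _)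
    have he3 : e ≤ (β - z t) / 2 := (min_le_right _ _).trans (min_le_right _ _)
    have m1 : z t - e ∈ Icc α β := ⟨by linarith [h1.1], by linarith [h1.2]⟩
    have m2 : z t + e ∈ Icc α β := ⟨by linarith [h1.1], by linarith [h1.2]⟩
    have m3 : z t ∈ Icc α β := Ioo_subset_Icc_self h1
    have h2 : T (z t - e) < t := by
      have := hm m1 m3 (by linarith)
      rwa [hzT t ht] at this
    have h3 : t < T (z t + e) := by
      have := hm m3 m2 (by linarith)
      rwa [hzT t ht] at this
    refine ⟨min (t - T (z t - e)) (T (z t + e) - t), lt_min (by linarith) (by linarith), ?_⟩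
    intro s hs hst
    rw [Real.dist_eq] at hst
    have a1 := hst.trans_le (min_le_left _ _)
    have a2 := hst.trans_le (min_le_right _ _)
    rw [abs_lt] at a1 a2
    have b1 := hlt s hs _ m1 (by linarith [a1.1])
    have b2 := hgt s hs _ m2 (by linarith [a2.2])
    rw [Real.dist_eq, abs_lt]
    constructor <;> linarith
  · intro s hs t ht hst
    refine hlt t ht _ (Ioo_subset_Icc_self (hz s hs)) ?_
    rw [hzT s hs]
    exact hst

theorem inv_both (T : ℝ → ℝ) (hT : Continuous T) (τ α β x₀ : ℝ) (hx₀ : x₀ ∈ Ioo α β)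
    (h0 : |T x₀| < τ) (hinj : InjOn T (Icc α β)) (ha : τ ≤ |T α|) (hb : τ ≤ |T β|) :
    ∃ z : ℝ → ℝ, (∀ t ∈ Ioo (-τ) τ, z t ∈ Ioo α β ∧ T (z t) = t) ∧
      ContinuousOn z (Ioo (-τ) τ) ∧
        (StrictMonoOn z (Ioo (-τ) τ) ∨ StrictAntiOn z (Ioo (-τ) τ)) := by
  have hab : α ≤ β := (hx₀.1.trans hx₀.2).le
  have m1 : α ∈ Icc α β := left_mem_Icc.mpr hab
  have m2 : β ∈ Icc α β := right_mem_Icc.mpr hab
  have m3 : x₀ ∈ Icc α β := Ioo_subset_Icc_self hx₀
  rw [abs_lt] at h0
  rcases hT.continuousOn.strictMonoOn_of_injOn_Icc' hab hinj with h | h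
  · have h1 := h m1 m3 hx₀.1
    have h2 := h m3 m2 hx₀.2
    have h3 : T α ≤ -τ := by
      rcases le_abs.mp ha with h3 | h3 <;> linarith
    have h4 : τ ≤ T β := by
      rcases le_abs.mp hb with h3 | h3 <;> linarith
    obtain ⟨z, hz, hzc, hzm⟩ := inv_mono T hT τ α β hab h h3 h4
    exact ⟨z, hz, hzc, Or.inl hzm⟩
  · have h1 := h m1 m3 hx₀.1
    have h2 := h m3 m2 hx₀.2
    have h3 : τ ≤ T α := by
      rcases le_abs.mp ha with h3 | h3 <;> linarith
    have h4 : T β ≤ -τ := by
      rcases le_abs.mp hb with h3 | h3 <;> linarith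
    obtain ⟨z, hz, hzc, hzm⟩ := inv_mono (fun x => T (-x)) (hT.comp continuous_neg) τ (-β) (-α)
      (by linarith) (by
        intro x hx y hy hxy
        exact h ⟨by linarith [hy.2], by linarith [hy.1]⟩ ⟨by linarith [hx.2], by linarith [hx.1]⟩
          (by linarith)) (by simpa using h4) (by simpa using h3)
    refine ⟨fun t => -z t, fun t ht => ⟨?_, (hz t ht).2⟩, hzc.neg, Or.inr ?_⟩
    · have := (hz t ht).1
      exact ⟨by linarith [this.2], by linarith [this.1]⟩
    · intro s hs t ht hst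
      have := hzm hs ht hst
      show -z t < -z s
      linarith

/-- the hypotheses on a family -/
structure Fam (τ ε : ℝ) (G : ℝ → ℝ → ℝ) : Prop where
  cont : Continuous fun q : ℝ × ℝ => G q.1 q.2
  mono : ∀ t, StrictMono (G t)
  inc : ∀ t t' x, t ≤ t' → G t x + (t' - t) ≤ G t' x
  per : ∀ t x, G t (x + 2 * Real.pi) = G t x + 2 * Real.pi
  notan : NoTangency G τ
  hpos : 0 ≤ G ε 0
  hneg : G (-ε) 0 ≤ 0

/-- the conclusions on a family -/
structure Res (τ ε : ℝ) (G : ℝ → ℝ → ℝ) (T z : ℝ → ℝ) (α β : ℝ) : Prop where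
  cont : Continuous T
  lev : ∀ x, G (T x) x = x
  uniq : ∀ t x, G t x = x → T x = t
  lip : ∀ x y, x ≤ y → T y ≤ T x + (y - x)
  zero : |T 0| ≤ ε
  neg : α < 0
  pos : 0 < β
  small : ∀ x ∈ Ioo α β, |T x| < τ
  la : τ ≤ |T α|
  lb : τ ≤ |T β|
  inj : InjOn T (Icc α β)
  mem : ∀ t ∈ Ioo (-τ) τ, z t ∈ Ioo α β ∧ T (z t) = t
  contz : ContinuousOn z (Ioo (-τ) τ)
  type : StrictMonoOn z (Ioo (-τ) τ) ∨ StrictAntiOn z (Ioo (-τ) τ)

theorem fam_res {τ ε : ℝ} (hε : ε < τ) (G : ℝ → ℝ → ℝ) (h : Fam τ ε G) :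
    ∃ (T z : ℝ → ℝ) (α β : ℝ), Res τ ε G T z α β := by
  have hex : ∀ x, ∃ t, G t x = x := by
    intro x
    have hcx : Continuous fun t => G t x := h.cont.comp (by fun_prop : Continuous fun t : ℝ => (t, x))
    set M := |G 0 x - x| with hM
    have hM0 : 0 ≤ M := abs_nonneg _
    have h1 : x ≤ G M x := by
      have := h.inc 0 M x hM0
      have h2 : -|G 0 x - x| ≤ G 0 x - x := neg_abs_le _
      linarith
    have h2 : G (-M) x ≤ x := by
      have := h.inc (-M) 0 x (by linarith)
      have h2 : G 0 x - x ≤ |G 0 x - x| := le_abs_self _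
      linarith
    obtain ⟨t, -, ht⟩ := intermediate_value_Icc (by linarith : -M ≤ M) hcx.continuousOn ⟨h2, h1⟩
    exact ⟨t, ht⟩
  choose T hT using hex
  have hst : ∀ t t' x, t < t' → G t x < G t' x := by
    intro t t' x h1
    have := h.inc t t' x h1.le
    linarith
  have huniq : ∀ t x, G t x = x → T x = t := by
    intro t x h2
    rcases lt_trichotomy (T x) t with h1 | h1 | h1
    · have := hst _ _ x h1
      rw [hT, h2] at this
      exact absurd this (lt_irrefl _)
    · exact h1
    · have := hst _ _ x h1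
      rw [hT, h2] at this
      exact absurd this (lt_irrefl _)
  have hle : ∀ t x, x ≤ G t x → T x ≤ t := by
    intro t x h2
    by_contra h1
    push Not at h1
    have := hst _ _ x h1
    rw [hT] at this
    linarith
  have hge : ∀ t x, G t x ≤ x → t ≤ T x := by
    intro t x h2
    by_contra h1
    push Not at h1
    have := hst _ _ x h1
    rw [hT] at this
    linarith
  have hlt : ∀ t x, x < G t x → T x < t := by
    intro t x h2
    by_contra h1
    push Not at h1
    have := h.inc _ _ x h1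
    rw [hT] at this
    linarith
  have hgt : ∀ t x, G t x < x → t < T x := by
    intro t x h2
    by_contra h1
    push Not at h1
    have := h.inc _ _ x h1
    rw [hT] at this
    linarith
  have hTc : Continuous T := by
    rw [Metric.continuous_iff]
    intro x ε hε
    have hcy : ∀ t, Continuous fun y => G t y - y := fun t =>
      (h.cont.comp (by fun_prop : Continuous fun y : ℝ => (t, y))).sub continuous_id
    have h1 : ∀ᶠ y in 𝓝 x, 0 < G (T x + ε) y - y := by
      refine (hcy _).continuousAt.eventually (lt_mem_nhds ?_)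
      have := hst (T x) (T x + ε) x (by linarith)
      rw [hT] at this
      linarith
    have h2 : ∀ᶠ y in 𝓝 x, G (T x - ε) y - y < 0 := by
      refine (hcy _).continuousAt.eventually (gt_mem_nhds ?_)
      have := hst (T x - ε) (T x) x (by linarith)
      rw [hT] at this
      linarith
    obtain ⟨δ, hδ, h0⟩ := Metric.eventually_nhds_iff.mp (h1.and h2)
    refine ⟨δ, hδ, fun y hy => ?_⟩
    obtain ⟨h3, h4⟩ := h0 hy
    have h5 := hlt _ _ (by linarith : y < G (T x + ε) y)
    have h6 := hgt _ _ (by linarith : G (T x - ε) y < y)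
    rw [Real.dist_eq, abs_lt]
    constructor <;> linarith
  have hTp : ∀ x, T (x + 2 * Real.pi) = T x := by
    intro x
    refine huniq _ _ ?_
    rw [h.per, hT]
  have hTl : ∀ x y, x ≤ y → T y ≤ T x + (y - x) := by
    intro x y hxy
    refine hle _ _ ?_
    have h1 := h.inc (T x) (T x + (y - x)) y (by linarith)
    have h2 := (h.mono (T x)).monotone hxy
    rw [hT] at h2
    linarith
  have hmono : ∀ t t' x, t ≤ t' → G t x ≤ G t' x := by
    intro t t' x h1
    have := h.inc t t' x h1
    linarith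
  have hextr : ∀ x, |T x| < τ → ¬ IsLocalExtr T x := by
    intro x hx hex
    refine h.notan (T x) hx x (hT x) ?_
    rcases hex with h1 | h1
    · right
      filter_upwards [h1] with y hy
      have := hmono _ _ y hy
      rw [hT] at this
      rw [hT]
      linarith
    · left
      filter_upwards [h1] with y hy
      have := hmono _ _ y hy
      rw [hT] at this
      rw [hT]
      linarith
  have h0 : |T 0| ≤ ε := by
    rw [abs_le]
    exact ⟨hge _ _ h.hneg, hle _ _ h.hpos⟩
  have hpi := Real.pi_pos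
  -- points of large level
  have hbig : ∃ x ∈ Icc (0 : ℝ) (2 * Real.pi), τ ≤ |T x| := by
    by_contra hcon
    push Not at hcon
    obtain ⟨c, hc, hex⟩ := exists_isLocalExtr_Ioo (by linarith : (0 : ℝ) < 2 * Real.pi)
      hTc.continuousOn (by rw [← hTp 0, zero_add])
    exact hextr c (hcon c (Ioo_subset_Icc_self hc)) hex
  obtain ⟨x₁, hx₁, hx₁'⟩ := hbig
  have hclosed : IsClosed {x | τ ≤ |T x|} := isClosed_le continuous_const (hTc.abs)
  obtain ⟨β, hβ⟩ := ((isCompact_Icc : IsCompact (Icc (0 : ℝ) (2 * Real.pi))).inter_right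
    hclosed).exists_isLeast ⟨x₁, hx₁, hx₁'⟩
  obtain ⟨α, hα⟩ := ((isCompact_Icc : IsCompact (Icc (-(2 * Real.pi)) (0 : ℝ))).inter_right
    hclosed).exists_isGreatest ⟨x₁ - 2 * Real.pi, ⟨by linarith [hx₁.1], by linarith [hx₁.2]⟩, by
      show τ ≤ |T (x₁ - 2 * Real.pi)|
      rw [← hTp (x₁ - 2 * Real.pi), sub_add_cancel]
      exact hx₁'⟩
  have hβ1 : β ∈ Icc (0 : ℝ) (2 * Real.pi) := hβ.1.1
  have hβ2 : τ ≤ |T β| := hβ.1.2
  have hα1 : α ∈ Icc (-(2 * Real.pi)) (0 : ℝ) := hα.1.1
  have hα2 : τ ≤ |T α| := hα.1.2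
  have hβ0 : 0 < β := by
    refine lt_of_le_of_ne hβ1.1 ?_
    rintro rfl
    linarith
  have hα0 : α < 0 := by
    refine lt_of_le_of_ne hα1.2 ?_
    rintro rfl
    linarith
  have hsmall : ∀ x ∈ Ioo α β, |T x| < τ := by
    intro x hx
    by_contra hcon
    push Not at hcon
    rcases le_total 0 x with h1 | h1
    · have := hβ.2 ⟨⟨h1, by linarith [hx.2, hβ1.2]⟩, hcon⟩
      linarith [hx.2]
    · have := hα.2 ⟨⟨by linarith [hx.1, hα1.1], h1⟩, hcon⟩
      linarith [hx.1]
  have hinj : InjOn T (Icc α β) := by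
    have key : ∀ x ∈ Icc α β, ∀ y ∈ Icc α β, x < y → T x ≠ T y := by
      intro x hx y hy hxy hT'
      obtain ⟨c, hc, hex⟩ := exists_isLocalExtr_Ioo hxy hTc.continuousOn hT'
      exact hextr c (hsmall c ⟨by linarith [hx.1, hc.1], by linarith [hy.2, hc.2]⟩) hex
    intro x hx y hy hT'
    rcases lt_trichotomy x y with h1 | h1 | h1
    · exact absurd hT' (key x hx y hy h1)
    · exact h1
    · exact absurd hT'.symm (key y hy x hx h1)
  obtain ⟨z, hz1, hz2, hz3⟩ := inv_both T hTc τ α β 0 ⟨hα0, hβ0⟩ (by linarith) hinj hα2 hβ2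
  exact ⟨T, z, α, β, hTc, hT, huniq, hTl, h0, hα0, hβ0, hsmall, hα2, hβ2, hinj, hz1, hz2, hz3⟩

end XBra

open XBra

theorem prf_Bra : Bra := by
  intro N l τ ε hN hper hc hm hp hε0 hετ hl0 hNT
  have hετ' : ε < τ := by linarith
  have hτ0 : 0 < τ := by linarith
  choose! TT ZZ AA BB hh using fam_res (τ := τ) (ε := ε) hετ'
  set G : ℕ → ℝ → ℝ → ℝ := fun i t x => orb (fun j => l (i + j)) t N x with hG
  have hfam : ∀ i, Fam τ ε (G i) := by
    intro i
    refine ⟨XBra.orb_cont (fun j => hc (i + j)) N,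
      fun t => XBra.orb_mono (fun j => hm (i + j)) t N, ?_, ?_, hNT i,
      orb_pos (fun j => hm (i + j)) (fun j => hl0 (i + j)) N,
      orb_neg (fun j => hm (i + j)) (fun j => hl0 (i + j)) N⟩
    · intro t t' x h
      exact (orb_inc (fun j => hm (i + j)) h x N).2 hN
    · intro t x
      exact XBra.orb_per (fun j => hp (i + j)) t N x
  have hres : ∀ i, Res τ ε (G i) (TT (G i)) (ZZ (G i)) (AA (G i)) (BB (G i)) := fun i =>
    hh (G i) (hfam i)
  have hGN : ∀ i, G (i + N) = G i := by
    intro i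
    have : (fun j => l (i + N + j)) = fun j => l (i + j) := by
      funext j
      rw [show i + N + j = (i + j) + N by omega, hper]
    simp only [hG]
    rw [this]
  -- transport
  have htr : ∀ i t x, G i t x = x → G (i + 1) t (l i x + t) = l i x + t := by
    intro i t x h
    have h1 := orb_shift (fun j => l (i + j)) t N x
    have h2 : (fun j => (fun j => l (i + j)) (j + 1)) = fun j => l (i + 1 + j) := by
      funext j
      show l (i + (j + 1)) = l (i + 1 + j)
      congr 1
      omega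
    rw [h2] at h1
    have h3 : G (i + 1) t (l i x + t) = orb (fun j => l (i + j)) t (N + 1) x := h1
    rw [h3]
    show l (i + N) (orb (fun j => l (i + j)) t N x) + t = l i x + t
    have h4 : orb (fun j => l (i + j)) t N x = x := h
    rw [h4, hper]
  have hstep : ∀ i, ∀ t ∈ Ioo (-τ) τ, ZZ (G (i + 1)) t = l i (ZZ (G i) t) + t := by
    intro i t ht
    have R := hres i
    have R' := hres (i + 1)
    set T := TT (G i) with hT
    set T' := TT (G (i + 1)) with hT'
    obtain ⟨hx, hxt⟩ := R.mem t ht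
    set x := ZZ (G i) t with hxdef
    set Φ : ℝ → ℝ := fun y => l i y + T y with hΦ
    have hΦc : Continuous Φ := (hc i).add R.cont
    have hΦT : ∀ y, T' (Φ y) = T y := by
      intro y
      exact R'.uniq _ _ (htr i (T y) y (R.lev y))
    have hw : Φ x = l i x + t := by
      show l i x + T x = _
      rw [hxt]
    have hΦ0 : |Φ 0| ≤ 2 * ε := by
      have h1 := abs_add_le (l i 0) (T 0)
      have h2 := hl0 i
      have h3 := R.zero
      show |l i 0 + T 0| ≤ _
      linarith
    have hΦ0' := abs_le.mp hΦ0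
    have hT0 := abs_le.mp R.zero
    have hT0' := abs_le.mp R'.zero
    have hsmall : ∀ v ∈ uIcc 0 (Φ x), |T' v| < τ := by
      intro v hv
      rcases uIcc_subset_uIcc_union_uIcc (b := Φ 0) hv with h1 | h1
      · have h2 := hΦT 0
        rcases le_total 0 (Φ 0) with h3 | h3
        · rw [uIcc_of_le h3] at h1
          have a1 := R'.lip 0 v h1.1
          have a2 := R'.lip v (Φ 0) h1.2
          rw [abs_lt]
          constructor <;> linarith [h1.1, h1.2, hΦ0'.1, hΦ0'.2, hT0.1, hT0.2, hT0'.1, hT0'.2]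
        · rw [uIcc_of_ge h3] at h1
          have a1 := R'.lip v 0 h1.2
          have a2 := R'.lip (Φ 0) v h1.1
          rw [abs_lt]
          constructor <;> linarith [h1.1, h1.2, hΦ0'.1, hΦ0'.2, hT0.1, hT0.2, hT0'.1, hT0'.2]
      · obtain ⟨y, hy, hyv⟩ := intermediate_value_uIcc (hΦc.continuousOn (s := uIcc 0 x)) h1
        rw [← hyv, hΦT]
        refine R.small y ?_
        have h0 : (0 : ℝ) ∈ Ioo (AA (G i)) (BB (G i)) := ⟨R.neg, R.pos⟩
        exact ordConnected_Ioo.uIcc_subset h0 hx hy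
    have hmem : Φ x ∈ Ioo (AA (G (i + 1))) (BB (G (i + 1))) := by
      constructor
      · by_contra hcon
        push Not at hcon
        have h1 : AA (G (i + 1)) ∈ uIcc 0 (Φ x) := by
          rw [uIcc_of_ge (hcon.trans R'.neg.le)]
          exact ⟨hcon, R'.neg.le⟩
        have h2 := hsmall _ h1
        have h3 := R'.la
        linarith
      · by_contra hcon
        push Not at hcon
        have h1 : BB (G (i + 1)) ∈ uIcc 0 (Φ x) := by
          rw [uIcc_of_le (R'.pos.le.trans hcon)]
          exact ⟨R'.pos.le, hcon⟩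
        have h2 := hsmall _ h1
        have h3 := R'.lb
        linarith
    rw [← hw]
    obtain ⟨hy, hyt⟩ := R'.mem t ht
    refine R'.inj (Ioo_subset_Icc_self hy) (Ioo_subset_Icc_self hmem) ?_
    rw [hyt]
    have := hΦT x
    rw [hxt] at this
    exact this.symm
  have hmstep : ∀ i, StrictMonoOn (ZZ (G i)) (Ioo (-τ) τ) →
      StrictMonoOn (ZZ (G (i + 1))) (Ioo (-τ) τ) := by
    intro i h s hs t ht hst
    rw [hstep i s hs, hstep i t ht]
    have := hm i (h hs ht hst)
    linarith
  refine ⟨fun i => ZZ (G i), ?_, fun i => (hres i).contz, hstep, ?_, ?_⟩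
  · intro i
    show ZZ (G (i + N)) = ZZ (G i)
    rw [hGN]
  · intro i
    have R := hres i
    refine ⟨TT (G i) 0, R.zero, ?_⟩
    have h1 := abs_le.mp R.zero
    have ht : TT (G i) 0 ∈ Ioo (-τ) τ := ⟨by linarith [h1.1], by linarith [h1.2]⟩
    obtain ⟨hy, hyt⟩ := R.mem _ ht
    exact R.inj (Ioo_subset_Icc_self hy) ⟨R.neg.le, R.pos.le⟩ hyt
  · rcases (hres 0).type with h | h
    · left
      intro i
      induction i with
      | zero => exact h
      | succ i ih => exact hmstep i ih
    · right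
      intro i
      rcases (hres i).type with h1 | h1
      · exfalso
        have h2 : ∀ k, StrictMonoOn (ZZ (G (i + k))) (Ioo (-τ) τ) := by
          intro k
          induction k with
          | zero => exact h1
          | succ k ih => exact hmstep (i + k) ih
        have h3 : ∀ k, G (k * N) = G 0 := by
          intro k
          induction k with
          | zero => rw [Nat.zero_mul]
          | succ k ih => rw [Nat.succ_mul, hGN, ih]
        have h4 : i + (i * N - i) = i * N := by
          have := Nat.le_mul_of_pos_right i hN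
          omega
        have h5 := h2 (i * N - i)
        rw [h4, h3] at h5
        have m1 : (0 : ℝ) ∈ Ioo (-τ) τ := ⟨by linarith, hτ0⟩
        have m2 : τ / 2 ∈ Ioo (-τ) τ := ⟨by linarith, by linarith⟩
        have a1 := h5 m1 m2 (by linarith)
        have a2 := h m1 m2 (by linarith)
        linarith
      · exact h1

end Pool.Agent.OmegaStability.NC
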