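import Pool.Agent.Work.MP_814647_an.NC.Stmts

/-!
# No cycles for Omega-stable circle extensions: item Con
-/

set_option autoImplicit false

open Set Filter Topology Function

noncomputable section

namespace Pool.Agent.OmegaStability.NC

open Dens

universe u v

namespace XCon

/-- A crossing persists for small parameters. -/
theorem persist {G : ℝ → ℝ → ℝ} (hfam : MonoFam G) {τ : ℝ} (hτ : 0 < τ) (hX : NoTangency G τ)
    {σ x₀ ρ : ℝ} (hcr : Cross (G 0) σ x₀ τ) (hρ : 0 < ρ) (hρτ : ρ < τ / 8) :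
    ∃ ε > 0, ε < τ / 4 ∧ ∀ t, |t| ≤ ε → ∃ x ∈ Ioo (x₀ - ρ) (x₀ + ρ), G t x = x ∧
      ∀ y ∈ Ioc x (x₀ + ρ), σ * (G t y - y) < 0 := by
  have hc1 : Continuous fun t => σ * (G t (x₀ - ρ) - (x₀ - ρ)) :=
    continuous_const.mul ((hfam.cont.comp (continuous_id.prodMk continuous_const)).sub
      continuous_const)
  have hc2 : Continuous fun t => σ * (G t (x₀ + ρ) - (x₀ + ρ)) :=
    continuous_const.mul ((hfam.cont.comp (continuous_id.prodMk continuous_const)).sub
      continuous_const)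
  have h1 : 0 < σ * (G 0 (x₀ - ρ) - (x₀ - ρ)) := hcr.left _ ⟨by linarith, by linarith⟩
  have h2 : σ * (G 0 (x₀ + ρ) - (x₀ + ρ)) < 0 := hcr.right _ ⟨by linarith, by linarith⟩
  have h3 : ∀ᶠ t in 𝓝 (0 : ℝ), 0 < σ * (G t (x₀ - ρ) - (x₀ - ρ)) ∧
      σ * (G t (x₀ + ρ) - (x₀ + ρ)) < 0 :=
    (hc1.continuousAt.eventually (lt_mem_nhds h1)).and
      (hc2.continuousAt.eventually (gt_mem_nhds h2))
  obtain ⟨δ, hδ, h4⟩ := Metric.eventually_nhds_iff.1 h3
  have hσ : σ ≠ 0 := by
    rintro rfl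
    simp at h1
  refine ⟨min (δ / 2) (τ / 8), lt_min (by linarith) (by linarith),
    lt_of_le_of_lt (min_le_right _ _) (by linarith), fun t ht => ?_⟩
  have ht1 : |t| ≤ τ / 8 := ht.trans (min_le_right _ _)
  have ht2 : |t| < δ := lt_of_le_of_lt (ht.trans (min_le_left _ _)) (by linarith)
  obtain ⟨h5, h6⟩ := h4 (y := t) (by rw [Real.dist_eq, sub_zero]; exact ht2)
  have hc : Continuous fun y => σ * (G t y - y) :=
    continuous_const.mul ((hfam.cont.comp (continuous_const.prodMk continuous_id)).sub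
      continuous_id)
  obtain ⟨x, hx, hx0⟩ := intermediate_value_Ioo' (by linarith : x₀ - ρ ≤ x₀ + ρ)
    hc.continuousOn (show (0 : ℝ) ∈ Ioo (σ * (G t (x₀ + ρ) - (x₀ + ρ)))
      (σ * (G t (x₀ - ρ) - (x₀ - ρ))) from ⟨h6, h5⟩)
  have hx1 : G t x = x := by
    rcases mul_eq_zero.1 hx0 with h | h
    · exact absurd h hσ
    · linarith
  have hsep : ∀ y, x < y → y ≤ x₀ + ρ → σ * (G t y - y) ≠ 0 := by
    intro y hxy hy h0
    have hy1 : G t y = y := by
      rcases mul_eq_zero.1 h0 with h | h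
      · exact absurd h hσ
      · linarith
    have := separated_at hfam hX (s := t) (by linarith) hxy hx1 hy1
    linarith [hx.1]
  refine ⟨x, hx, hx1, fun y hy => ?_⟩
  by_contra hcon
  have h7 : 0 < σ * (G t y - y) := lt_of_le_of_ne (not_lt.1 hcon) (hsep y hy.1 hy.2).symm
  obtain ⟨z, hz, hz0⟩ := intermediate_value_Ioo' hy.2 hc.continuousOn
    (show (0 : ℝ) ∈ Ioo (σ * (G t (x₀ + ρ) - (x₀ + ρ))) (σ * (G t y - y)) from ⟨h6, h7⟩)
  exact hsep z (hy.1.trans hz.1) hz.2.le hz0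

end XCon

theorem prf_Con : Con.{u, v} := by
  intro M B _ _ _ π A f f' ℒ Dm τ hE a n hn ha σ x₀ hcr ρ hρ
  set L : ℕ → ℝ → ℝ := fun j => ℒ (f^[j] a) with hL
  set E : ℕ → M := fun j => f^[j] a with hEd
  have hτ := hE.pos
  have hch : Chain f ℒ n E L := chain_periodic hE.lift hn ha
  have hret := hch.retMap hE.lift
  have hfam := hret.monoFam
  have hX : NoTangency (fun t θ => orb L t n θ) τ := hE.notan _ _ _ _ hn hret
  have hρ1 : 0 < min ρ (τ / 16) := lt_min hρ (by linarith)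
  obtain ⟨ε, hε, hετ, h⟩ := XCon.persist hfam hτ hX hcr hρ1
    (lt_of_le_of_lt (min_le_right _ _) (by linarith))
  refine ⟨ε, hε, fun t ht => ?_⟩
  obtain ⟨x, hx, hx1, hx2⟩ := h t ht
  have hmin : min ρ (τ / 16) ≤ ρ := min_le_left _ _
  have hder : HasDerivAt (orb L t n) (loopD Dm E L t n x) x := by
    refine orb_hasDerivAt (n := n) (fun j _ θ => ?_) t x n le_rfl
    exact hE.der (E j) (f (E j)) (L j) (hE.lift.cont _) (hE.lift.mono _).monotone
      (hE.lift.map _) θ
  have hne : loopD Dm E L t n x ≠ 1 :=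
    hE.mult _ _ _ _ hn hret t (by linarith) x hx1 _ hder
  have hpm : pm Dm (rot f t) (Circle.exp x • a) n = loopD Dm E L t n x := by
    unfold pm loopD
    refine Finset.prod_congr rfl fun i hi => ?_
    congr 1
    exact hch.iterate t x i (Finset.mem_range.1 hi).le
  refine ⟨x, ⟨by linarith [hx.1], by linarith [hx.2]⟩, ?_, fun hσ => ?_, fun hσ => ?_⟩
  · have h3 : (rot f t)^[n] (Circle.exp x • a) = Circle.exp (orb L t n x) • f^[n] a :=
      hch.iterate t x n le_rfl
    rw [h3, ha]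
    have h4 : orb L t n x = x := hx1
    rw [h4]
  · rw [hpm]
    refine lt_of_le_of_ne (deriv_le_one hder hx1 hx.2 fun y hy => ?_) hne
    have h5 : σ * (orb L t n y - y) < 0 := hx2 y hy
    rw [hσ] at h5
    linarith
  · rw [hpm]
    refine lt_of_le_of_ne (one_le_deriv hder hx1 hx.2 fun y hy => ?_) hne.symm
    have h5 : σ * (orb L t n y - y) < 0 := hx2 y hy
    rw [hσ] at h5
    linarith

end Pool.Agent.OmegaStability.NC
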