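import Pool.Agent.Work.MP_814647_an.NC.Stmts

/-!
# Block NC, item CyP: a cyclic pseudo-orbit which follows two periodic orbits
-/

set_option autoImplicit false

open Set Filter Topology Function

noncomputable section

namespace Pool.Agent.OmegaStability.NC

open Dens

universe u v

namespace XCyP

/-- `u` on `[0, n]` is a pseudo-orbit with jumps smaller than `δ` -/
def Seg {M : Type u} [MetricSpace M] (F : M → M) (δ : ℝ) (u : ℕ → M) (n : ℕ) : Prop :=
  ∀ j < n, dist (F (u j)) (u (j + 1)) < δ

def cat {M : Type u} (u v : ℕ → M) (n : ℕ) : ℕ → M := fun j => if j < n then u j else v (j - n)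

theorem cat_right {M : Type u} (u v : ℕ → M) (n j : ℕ) : cat u v n (n + j) = v j := by
  unfold cat
  rw [if_neg (by omega), Nat.add_sub_cancel_left]

theorem cat_left {M : Type u} {u v : ℕ → M} {n j : ℕ} (h : u n = v 0) (hj : j ≤ n) :
    cat u v n j = u j := by
  rcases Nat.lt_or_ge j n with h1 | h1
  · unfold cat
    rw [if_pos h1]
  · obtain rfl : j = n := le_antisymm hj h1
    have := cat_right u v j 0
    rw [Nat.add_zero] at this
    rw [this, h]

theorem seg_cat {M : Type u} [MetricSpace M] {F : M → M} {δ : ℝ} {u v : ℕ → M} {n m : ℕ}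
    (hu : Seg F δ u n) (hv : Seg F δ v m) (h : u n = v 0) : Seg F δ (cat u v n) (n + m) := by
  intro j hj
  rcases Nat.lt_or_ge j n with h1 | h1
  · rw [cat_left h h1.le, cat_left h h1]
    exact hu j h1
  · obtain ⟨i, rfl⟩ := Nat.exists_eq_add_of_le h1
    rw [Nat.add_assoc, cat_right, cat_right]
    exact hv i (by omega)

theorem seg_orbit {M : Type u} [MetricSpace M] {F : M → M} {δ : ℝ} (hδ : 0 < δ) (a : M) (n : ℕ) :
    Seg F δ (fun j => F^[j] a) n := by
  intro j _
  show dist (F (F^[j] a)) (F^[j + 1] a) < δ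
  rw [Function.iterate_succ_apply', dist_self]
  exact hδ

theorem iter_mul {M : Type u} {F : M → M} {n : ℕ} {a : M} (h : F^[n] a = a) (k : ℕ) :
    F^[k * n] a = a := by
  rw [Nat.mul_comm, Function.iterate_mul]
  exact Function.iterate_fixed h k

end XCyP

open XCyP in
theorem prf_CyP : CyP.{u} := by
  intro M _ f δ a b n n' k k' hδ hn hn' ha hb hab hba
  obtain ⟨n₁, c₁, hn₁, p1, p2, p3⟩ := hab
  obtain ⟨n₂, c₂, hn₂, q1, q2, q3⟩ := hba
  set A : ℕ → M := fun j => f^[j] a with hA
  set B : ℕ → M := fun j => f^[j] b with hB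
  have hAn : A (k * n) = a := iter_mul ha k
  have hBn : B (k' * n') = b := iter_mul hb k'
  have hA0 : A 0 = a := rfl
  have hB0 : B 0 = b := rfl
  -- last two pieces
  set w3 : ℕ → M := cat B c₂ (k' * n') with hw3
  have e3 : B (k' * n') = c₂ 0 := by rw [hBn, q1]
  have s3 : Seg f δ w3 (k' * n' + n₂) := seg_cat (seg_orbit hδ b _) q3 e3
  have w30 : w3 0 = b := by rw [hw3, cat_left e3 (Nat.zero_le _), hB0]
  -- last three pieces
  set w2 : ℕ → M := cat c₁ w3 n₁ with hw2
  have e2 : c₁ n₁ = w3 0 := by rw [w30, p2]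
  have s2 : Seg f δ w2 (n₁ + (k' * n' + n₂)) := seg_cat p3 s3 e2
  have w20 : w2 0 = a := by rw [hw2, cat_left e2 (Nat.zero_le _), p1]
  -- all pieces
  set w : ℕ → M := cat A w2 (k * n) with hw
  have e1 : A (k * n) = w2 0 := by rw [w20, hAn]
  set N : ℕ := k * n + (n₁ + (k' * n' + n₂)) with hN
  have s1 : Seg f δ w N := seg_cat (seg_orbit hδ a _) s2 e1
  have w0 : w 0 = a := by rw [hw, cat_left e1 (Nat.zero_le _), hA0]
  have wN : w N = a := by
    rw [hw, hN, cat_right, hw2, cat_right, hw3, cat_right, q2]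
  have hNpos : 0 < N := by omega
  refine ⟨N, fun j => w (j % N), hNpos, fun j => ?_, fun j => ?_, fun i hi => ?_,
    k * n + n₁, fun i hi => ?_⟩
  · show w ((j + N) % N) = w (j % N)
    rw [Nat.add_mod_right]
  · show dist (f (w (j % N))) (w ((j + 1) % N)) < δ
    have hr : j % N < N := Nat.mod_lt _ hNpos
    have hs := s1 (j % N) hr
    rcases Nat.lt_or_ge (j % N + 1) N with h1 | h1
    · have : (j + 1) % N = j % N + 1 := by
        rw [Nat.add_mod, Nat.mod_eq_of_lt (show 1 < N by omega), Nat.mod_eq_of_lt h1]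
      rw [this]
      exact hs
    · have h2 : j % N + 1 = N := by omega
      have : (j + 1) % N = 0 := by
        have h3 := Nat.mod_add_div j N
        have h4 : j + 1 = N + N * (j / N) := by omega
        rw [h4, Nat.add_mul_mod_self_left, Nat.mod_self]
      rw [this, w0, ← wN]
      rw [h2] at hs
      exact hs
  · show w (i % N) = f^[i] a
    rw [Nat.mod_eq_of_lt (by omega), hw, cat_left e1 hi]
  · show w ((k * n + n₁ + i) % N) = f^[i] b
    rw [Nat.mod_eq_of_lt (by omega), Nat.add_assoc, hw, cat_right, hw2, cat_right, hw3,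
      cat_left e3 hi]

end Pool.Agent.OmegaStability.NC
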