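import Pool.Agent.Work.MP_814647_an.NC.Stmts

/-!
# [814647 NC] item Dri: drift between the neighbours of a fixed point
-/

set_option autoImplicit false

open Set Filter Topology Function

namespace Pool.Agent.OmegaStability.NC

namespace XDri

/-- a positive continuous function on a compact interval is bounded from below -/
theorem cmp (h : ℝ → ℝ) (hc : Continuous h) (a b : ℝ) (hp : ∀ x ∈ Icc a b, 0 < h x) :
    ∃ c > 0, ∀ x ∈ Icc a b, c ≤ h x := by
  rcases (Icc a b).eq_empty_or_nonempty with he | hn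
  · exact ⟨1, one_pos, fun x hx => by rw [he] at hx; exact absurd hx (notMem_empty x)⟩
  · obtain ⟨y, hy, hmin⟩ := isCompact_Icc.exists_isMinOn hn hc.continuousOn
    exact ⟨h y, hp y hy, fun x hx => hmin hx⟩

/-- the attracting case -/
theorem attr (P : ℝ → ℝ) (l r ρ c δ : ℝ) (hm : Monotone P) (h0 : P 0 = 0) (hρ : 0 < ρ)
    (hl0 : l < 0) (hr0 : 0 < r) (hc : 0 < c) (hδc : δ ≤ c / 2) (hδρ : δ ≤ ρ / 2)
    (hR : ∀ x ∈ Icc (ρ / 2) (r - ρ), c ≤ x - P x)
    (hL : ∀ x ∈ Icc (l + ρ) (-(ρ / 2)), c ≤ P x - x)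
    (hR0 : ∀ x ∈ Ioo 0 r, P x < x) (hL0 : ∀ x ∈ Ioo l 0, x < P x)
    (K : ℕ) (hK : r - l < K * (c / 2)) (m₁ : ℕ) (x : ℕ → ℝ)
    (hx : ∀ m < m₁, |x (m + 1) - P (x m)| ≤ δ) (hb : ∀ m ≤ m₁, x m ∈ Icc (l + ρ) (r - ρ))
    (m : ℕ) (h1 : K ≤ m) (h2 : m ≤ m₁) : |x m| ≤ ρ := by
  have key : ∀ k : ℕ, k ≤ m₁ → |x k| ≤ ρ ∨ (ρ < x k ∧ x k ≤ r - k * (c / 2)) ∨
      (x k < -ρ ∧ l + k * (c / 2) ≤ x k) := by
    intro k
    induction k with
    | zero =>
      intro _
      have h3 := hb 0 (Nat.zero_le _)
      rcases le_or_gt (|x 0|) ρ with h | h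
      · exact Or.inl h
      · rcases lt_abs.1 h with h | h
        · refine Or.inr (Or.inl ⟨h, ?_⟩)
          push_cast
          linarith [h3.2]
        · refine Or.inr (Or.inr ⟨by linarith, ?_⟩)
          push_cast
          linarith [h3.1]
    | succ k ih =>
      intro hk
      have h3 := hb k (by omega)
      have h4 := abs_le.1 (hx k (by omega))
      have hk1 : ((k + 1 : ℕ) : ℝ) * (c / 2) = k * (c / 2) + c / 2 := by push_cast; ring
      rcases ih (by omega) with h | ⟨h, h'⟩ | ⟨h, h'⟩
      · left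
        have h5 := abs_le.1 h
        rw [abs_le]
        rcases le_total 0 (x k) with h6 | h6
        · have h7 : 0 ≤ P (x k) := by
            rw [← h0]
            exact hm h6
          refine ⟨by linarith, ?_⟩
          rcases le_or_gt (ρ / 2) (x k) with h8 | h8
          · have h9 := hR (x k) ⟨h8, h3.2⟩
            linarith
          · have h9 : P (x k) ≤ x k := by
              rcases h6.eq_or_lt with h10 | h10
              · rw [← h10, h0]
              · exact (hR0 (x k) ⟨h10, by linarith [h3.2]⟩).le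
            linarith
        · have h7 : P (x k) ≤ 0 := by
            rw [← h0]
            exact hm h6
          refine ⟨?_, by linarith⟩
          rcases le_or_gt (x k) (-(ρ / 2)) with h8 | h8
          · have h9 := hL (x k) ⟨h3.1, h8⟩
            linarith
          · have h9 : x k ≤ P (x k) := by
              rcases h6.eq_or_lt with h10 | h10
              · rw [h10, h0]
              · exact (hL0 (x k) ⟨by linarith [h3.1], h10⟩).le
            linarith
      · have h5 := hR (x k) ⟨by linarith, h3.2⟩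
        have h7 : 0 ≤ P (x k) := by
          rw [← h0]
          exact hm (by linarith)
        rcases le_or_gt (|x (k + 1)|) ρ with h8 | h8
        · exact Or.inl h8
        · rcases lt_abs.1 h8 with h8 | h8
          · refine Or.inr (Or.inl ⟨h8, ?_⟩)
            rw [hk1]
            linarith
          · exfalso
            linarith
      · have h5 := hL (x k) ⟨h3.1, by linarith⟩
        have h7 : P (x k) ≤ 0 := by
          rw [← h0]
          exact hm (by linarith)
        rcases le_or_gt (|x (k + 1)|) ρ with h8 | h8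
        · exact Or.inl h8
        · rcases lt_abs.1 h8 with h8 | h8
          · exfalso
            linarith
          · refine Or.inr (Or.inr ⟨by linarith, ?_⟩)
            rw [hk1]
            linarith
  have hKm : (K : ℝ) * (c / 2) ≤ m * (c / 2) := by
    have h3 : (K : ℝ) ≤ m := by exact_mod_cast h1
    exact mul_le_mul_of_nonneg_right h3 (by linarith)
  rcases key m h2 with h | ⟨h, h'⟩ | ⟨h, h'⟩
  · exact h
  · exfalso
    linarith
  · exfalso
    linarith

/-- the repelling case -/
theorem repl (P : ℝ → ℝ) (l r ρ c δ : ℝ) (hρ : 0 < ρ) (hl0 : l < 0) (hr0 : 0 < r) (hc : 0 < c)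
    (hδc : δ ≤ c / 2)
    (hR : ∀ x ∈ Icc (ρ / 2) (r - ρ), c ≤ P x - x)
    (hL : ∀ x ∈ Icc (l + ρ) (-(ρ / 2)), c ≤ x - P x)
    (K : ℕ) (hK : r - l < K * (c / 2)) (m₁ : ℕ) (x : ℕ → ℝ)
    (hx : ∀ m < m₁, |x (m + 1) - P (x m)| ≤ δ) (hb : ∀ m ≤ m₁, x m ∈ Icc (l + ρ) (r - ρ))
    (m : ℕ) (h2 : m + K ≤ m₁) : |x m| ≤ ρ := by
  by_contra hno
  rcases lt_abs.1 (not_le.1 hno) with h | h
  · have key : ∀ j : ℕ, j ≤ K → ρ + j * (c / 2) ≤ x (m + j) := by
      intro j
      induction j with
      | zero =>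
        intro _
        simpa using h.le
      | succ j ih =>
        intro hj
        have h3 := ih (by omega)
        have h4 := abs_le.1 (hx (m + j) (by omega))
        have h5 : 0 ≤ (j : ℝ) * (c / 2) := by positivity
        have h6 := hR (x (m + j)) ⟨by linarith, (hb (m + j) (by omega)).2⟩
        have h7 : ((j + 1 : ℕ) : ℝ) * (c / 2) = j * (c / 2) + c / 2 := by push_cast; ring
        rw [h7, ← add_assoc m j 1]
        linarith
    have h3 := key K le_rfl
    have h4 := (hb (m + K) h2).2
    linarith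
  · have key : ∀ j : ℕ, j ≤ K → x (m + j) ≤ -ρ - j * (c / 2) := by
      intro j
      induction j with
      | zero =>
        intro _
        simp only [Nat.cast_zero, zero_mul, sub_zero, add_zero]
        linarith
      | succ j ih =>
        intro hj
        have h3 := ih (by omega)
        have h4 := abs_le.1 (hx (m + j) (by omega))
        have h5 : 0 ≤ (j : ℝ) * (c / 2) := by positivity
        have h6 := hL (x (m + j)) ⟨(hb (m + j) (by omega)).1, by linarith⟩
        have h7 : ((j + 1 : ℕ) : ℝ) * (c / 2) = j * (c / 2) + c / 2 := by push_cast; ring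
        rw [h7, ← add_assoc m j 1]
        linarith
    have h3 := key K le_rfl
    have h4 := (hb (m + K) h2).1
    linarith

/-- the fixed point -/
theorem fix0 (P : ℝ → ℝ) (l r : ℝ) (hc : Continuous P) (hl0 : l < 0) (hr0 : 0 < r)
    (hR0 : ∀ x ∈ Ioo 0 r, P x < x) (hL0 : ∀ x ∈ Ioo l 0, x < P x) : P 0 = 0 := by
  have h1 : Tendsto (fun x => P x - x) (𝓝 0) (𝓝 (P 0 - 0)) :=
    (hc.sub continuous_id).tendsto 0
  rw [sub_zero] at h1
  apply le_antisymm
  · refine le_of_tendsto (h1.mono_left nhdsWithin_le_nhds : Tendsto _ (𝓝[>] (0 : ℝ)) _) ?_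
    filter_upwards [Ioo_mem_nhdsGT hr0] with x hx
    linarith [hR0 x hx]
  · refine ge_of_tendsto (h1.mono_left nhdsWithin_le_nhds : Tendsto _ (𝓝[<] (0 : ℝ)) _) ?_
    filter_upwards [Ioo_mem_nhdsLT hl0] with x hx
    linarith [hL0 x hx]

end XDri

theorem prf_Dri : Dri := by
  intro P σ l r ρ hPc hPm hσ hl hr hρ hL hR
  have hcR : Continuous fun x => σ * (x - P x) := continuous_const.mul (continuous_id.sub hPc)
  have hcL : Continuous fun x => σ * (P x - x) := continuous_const.mul (hPc.sub continuous_id)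
  obtain ⟨c₁, hc₁, h1⟩ := XDri.cmp _ hcR (ρ / 2) (r - ρ) (fun x hx => by
    have h3 := hR x ⟨by linarith [hx.1], by linarith [hx.2]⟩
    have h4 : σ * (x - P x) = -(σ * (P x - x)) := by ring
    rw [h4]
    linarith)
  obtain ⟨c₂, hc₂, h2⟩ := XDri.cmp _ hcL (l + ρ) (-(ρ / 2)) (fun x hx =>
    hL x ⟨by linarith [hx.1], by linarith [hx.2]⟩)
  set c : ℝ := min c₁ c₂ with hc
  have hc0 : 0 < c := lt_min hc₁ hc₂
  obtain ⟨K, hK⟩ := exists_nat_gt ((r - l) / (c / 2))
  rw [div_lt_iff₀ (by positivity)] at hK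
  refine ⟨min (c / 2) (ρ / 2), lt_min (by positivity) (by positivity), K, ?_⟩
  intro m₁ x hx hb m hm hm₁
  rcases hσ with rfl | rfl
  · refine XDri.attr P l r ρ c (min (c / 2) (ρ / 2)) hPm ?_ hρ hl hr hc0 (min_le_left _ _)
      (min_le_right _ _) (fun y hy => ?_) (fun y hy => ?_) (fun y hy => ?_) (fun y hy => ?_)
      K hK m₁ x hx hb m hm (by omega)
    · refine XDri.fix0 P l r hPc hl hr (fun y hy => ?_) (fun y hy => ?_)
      · linarith [hR y hy]
      · linarith [hL y hy]
    · have h3 := h1 y hy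
      have h4 : c ≤ c₁ := min_le_left _ _
      linarith
    · have h3 := h2 y hy
      have h4 : c ≤ c₂ := min_le_right _ _
      linarith
    · linarith [hR y hy]
    · linarith [hL y hy]
  · refine XDri.repl P l r ρ c (min (c / 2) (ρ / 2)) hρ hl hr hc0 (min_le_left _ _)
      (fun y hy => ?_) (fun y hy => ?_) K hK m₁ x hx hb m hm₁
    · have h3 := h1 y hy
      have h4 : c ≤ c₁ := min_le_left _ _
      linarith
    · have h3 := h2 y hy
      have h4 : c ≤ c₂ := min_le_right _ _
      linarith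

end Pool.Agent.OmegaStability.NC
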