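import Pool.Agent.Work.MP_814647_an.NC.Stmts

/-!
# Item Mid: in the middle of a long passage the curve is close to zero
-/

set_option autoImplicit false

open Set Filter Topology Function

noncomputable section

namespace Pool.Agent.OmegaStability.NC

open Dens

universe u v

namespace XMid

/-- Two periodic points of opposite type are not close to each other. -/
theorem clash {M : Type u} [MetricSpace M] [MulAction Circle M] {f : M → M} {Dm : M → ℝ}
    {η τ σ : ℝ}
    (hU : ∀ s : ℝ, |s| ≤ τ / 2 → ∀ (a b : M) (n n' : ℕ), 0 < n → 0 < n' →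
      (rot f s)^[n] a = a → (rot f s)^[n'] b = b → pm Dm (rot f s) a n < 1 →
      1 < pm Dm (rot f s) b n' → η ≤ dist a b)
    (hσ : σ = 1 ∨ σ = -1) {s : ℝ} (hs : |s| ≤ τ / 2) {b c : M} {n n' : ℕ} (hn : 0 < n)
    (hn' : 0 < n') (hb : (rot f s)^[n] b = b) (hc : (rot f s)^[n'] c = c)
    (hb1 : σ = 1 → pm Dm (rot f s) b n < 1) (hb2 : σ = -1 → 1 < pm Dm (rot f s) b n)
    (hc1 : σ = 1 → 1 < pm Dm (rot f s) c n') (hc2 : σ = -1 → pm Dm (rot f s) c n' < 1)
    (hd : dist b c < η) : False := by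
  rcases hσ with h | h
  · exact absurd (hU s hs b c n n' hn hn' hb hc (hb1 h) (hc1 h)) (not_le.2 hd)
  · have h1 := hU s hs c b n' n hn' hn hc hb (hc2 h) (hb2 h)
    rw [dist_comm] at h1
    exact absurd h1 (not_le.2 hd)

/-- The curve at phase `i + k` is obtained from the curve at phase `i`. -/
theorem curve_orb {N : ℕ} {l : ℕ → ℝ → ℝ} {τ ε : ℝ} {z : ℕ → ℝ → ℝ} (h : Curve N l τ ε z)
    {t : ℝ} (ht : t ∈ Ioo (-τ) τ) (i k : ℕ) :
    z (i + k) t = orb (fun j => l (i + j)) t k (z i t) := by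
  induction k with
  | zero => rfl
  | succ k ih =>
    show z (i + k + 1) t = l (i + k) (orb (fun j => l (i + j)) t k (z i t)) + t
    rw [h.step _ t ht, ih]

theorem per_mul_add {M : Type u} {f : M → M} {a : M} {n : ℕ} (ha : f^[n] a = a) (m j : ℕ) :
    f^[m * n + j] a = f^[j] a := by
  induction m with
  | zero => rw [zero_mul, zero_add]
  | succ m ih => rw [show (m + 1) * n + j = (m * n + j) + n by ring, iterate_add_apply, ha, ih]

/-- Continuity of a family, uniformly on an interval. -/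
theorem fam_close {G : ℝ → ℝ → ℝ} (hG : Continuous fun q : ℝ × ℝ => G q.1 q.2) (u w : ℝ) {δ : ℝ}
    (hδ : 0 < δ) : ∃ δ' > 0, ∀ t, |t| < δ' → ∀ x ∈ Icc u w, |G t x - G 0 x| < δ := by
  have h : ∀ᶠ t in 𝓝 (0 : ℝ), ∀ x ∈ Icc u w, |G t x - G 0 x| < δ := by
    refine IsCompact.eventually_forall_of_forall_eventually isCompact_Icc ?_
    intro x _
    have hc : Continuous fun q : ℝ × ℝ => |G q.1 q.2 - G 0 q.2| :=
      (hG.sub (hG.comp (continuous_const.prodMk continuous_snd))).abs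
    have h0 : |G (0, x).1 (0, x).2 - G 0 (0, x).2| < δ := by
      simpa using hδ
    exact (hc.tendsto (0, x)).eventually (gt_mem_nhds h0)
  obtain ⟨δ', hδ', h'⟩ := Metric.eventually_nhds_iff.1 h
  exact ⟨δ', hδ', fun t ht => h' (by simpa using ht)⟩

end XMid

theorem prf_Mid : Mid.{u, v} := by
  intro hTyM hNbr hCon hDri M B _ _ _ _ π A f f' ℒ Dm τ hE hUex a n hn ha ρ hρ
  obtain ⟨η, hη, hU⟩ := hUex
  have hτ := hE.pos
  obtain ⟨σ, lL, rR, hσ', hlL, hrR, hc0, hcl, hcr, hsl, hsr⟩ :=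
    hNbr M B π A f f' ℒ Dm τ hE a n hn ha
  have hσ : σ = 1 ∨ σ = -1 := by
    rcases hσ' with h | h
    · exact Or.inl h.1
    · exact Or.inr h.1
  -- constants
  obtain ⟨δr, hδr, hrot⟩ := exists_rot_close (M := M) hE.act (ε := η / 4) (by linarith)
  obtain ⟨δ₁, hδ₁, hsm⟩ := exists_smul_close (M := M) hE.act (ε := η / 4) (by linarith)
  set ρ₁ : ℝ := min (min ρ (τ / 4)) (δr / 4) with hρ₁
  have hρ₁0 : 0 < ρ₁ := lt_min (lt_min hρ (by linarith)) (by linarith)
  have hρ₁ρ : ρ₁ ≤ ρ := (min_le_left _ _).trans (min_le_left _ _)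
  have hρ₁τ : ρ₁ ≤ τ / 4 := (min_le_left _ _).trans (min_le_right _ _)
  have hρ₁r : ρ₁ ≤ δr / 4 := min_le_right _ _
  have hexp : ∀ (x x' : ℝ) (y : M), |x - x'| ≤ 2 * ρ₁ →
      dist (Circle.exp x • y) (Circle.exp x' • y) < η / 4 := by
    intro x x' y hx
    have h1 := hrot (x - x') (Circle.exp x' • y) (by linarith)
    rwa [smul_smul, ← Circle.exp_add, sub_add_cancel] at h1
  obtain ⟨ε₀, hε₀, hC0⟩ := hCon M B π A f f' ℒ Dm τ hE a n hn ha σ 0 hc0 ρ₁ hρ₁0
  obtain ⟨ε₁, hε₁, hCl⟩ := hCon M B π A f f' ℒ Dm τ hE a n hn ha (-σ) lL hcl ρ₁ hρ₁0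
  obtain ⟨ε₂, hε₂, hCr⟩ := hCon M B π A f f' ℒ Dm τ hE a n hn ha (-σ) rR hcr ρ₁ hρ₁0
  set ε : ℝ := min (min ε₀ ε₁) (min ε₂ (τ / 4)) with hεdef
  have hε0 : 0 < ε := lt_min (lt_min hε₀ hε₁) (lt_min hε₂ (by linarith))
  have hεε₀ : ε ≤ ε₀ := (min_le_left _ _).trans (min_le_left _ _)
  have hεε₁ : ε ≤ ε₁ := (min_le_left _ _).trans (min_le_right _ _)
  have hεε₂ : ε ≤ ε₂ := (min_le_right _ _).trans (min_le_left _ _)
  have hετ : ε ≤ τ / 4 := (min_le_right _ _).trans (min_le_right _ _)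
  -- the return map
  have hCh := chain_periodic hE.lift hn ha
  have hLc : ∀ j, Continuous ((fun j => ℒ (f^[j] a)) j) := fun j => hE.lift.cont _
  have hLm : ∀ j, Monotone ((fun j => ℒ (f^[j] a)) j) := fun j => (hE.lift.mono _).monotone
  have hGc : Continuous fun q : ℝ × ℝ => orb (fun j => ℒ (f^[j] a)) q.1 n q.2 := orb_cont hLc n
  obtain ⟨δ₂, hδ₂, K, hD⟩ := hDri (orb (fun j => ℒ (f^[j] a)) 0 n) σ lL rR ρ₁
    (hGc.comp (continuous_const.prodMk continuous_id)) (orb_mono hLm 0 n) hσ (by linarith)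
    (by linarith) hρ₁0 hsl hsr
  obtain ⟨δ₃, hδ₃, hG3⟩ := XMid.fam_close
    (G := fun t x => orb (fun j => ℒ (f^[j] a)) t n x) hGc lL rR hδ₂
  set δ : ℝ := min (min δ₁ (δ₃ / 2)) (η / 4) with hδdef
  have hδ0 : 0 < δ := lt_min (lt_min hδ₁ (by linarith)) (by linarith)
  have hδδ₁ : δ ≤ δ₁ := (min_le_left _ _).trans (min_le_left _ _)
  have hδδ₃ : δ ≤ δ₃ / 2 := (min_le_left _ _).trans (min_le_right _ _)
  have hδη : δ ≤ η / 4 := min_le_right _ _
  refine ⟨ε, hε0, δ, hδ0, K, ?_⟩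
  intro N e l ε' z hε' hLoop hCur i0 k₁ hd hlift m hKm hmK
  have h0τ : (0 : ℝ) ∈ Ioo (-τ) τ := ⟨by linarith, hτ⟩
  have hsmall : ∀ s : ℝ, |s| ≤ ε' → s ∈ Ioo (-τ) τ ∧ |s| ≤ τ / 2 := by
    intro s hs
    have h1 : |s| ≤ τ / 4 := by linarith
    have h2 := abs_le.1 h1
    exact ⟨⟨by linarith [h2.1], by linarith [h2.2]⟩, by linarith⟩
  -- Claim A: the type of the curve
  have hA : ∀ t ∈ Ioo (-τ) τ, ∀ i, (σ = 1 → pm Dm (rot f t) (Circle.exp (z i t) • e i) N < 1) ∧
      (σ = -1 → 1 < pm Dm (rot f t) (Circle.exp (z i t) • e i) N) := by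
    obtain ⟨s, hs, hzs⟩ := hCur.zero i0
    obtain ⟨hsτ, hs2⟩ := hsmall s hs
    obtain ⟨x', hx', hx'1, hx'2, hx'3⟩ := hC0 s (by linarith)
    obtain ⟨-, hT1, hT2, hT3⟩ := hTyM M B π A f f' ℒ Dm τ hE N e l ε' z hLoop hCur s hsτ i0
    rw [hzs, Circle.exp_zero, one_smul] at hT1 hT2 hT3
    have hde : dist (e i0) a < δ := by
      have := hd 0 (Nat.zero_le _)
      simpa using this
    have hdist : dist (Circle.exp x' • a) (e i0) < η := by
      have h1 := hexp x' 0 a (by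
        rw [sub_zero]
        have := hx'
        rw [zero_sub, zero_add] at this
        exact (abs_lt.2 this).le.trans (by linarith))
      rw [Circle.exp_zero, one_smul] at h1
      have h2 := dist_triangle (Circle.exp x' • a) a (e i0)
      rw [dist_comm a (e i0)] at h2
      linarith
    have hnot : ∀ (_ : σ = 1 → 1 < pm Dm (rot f s) (e i0) N)
        (_ : σ = -1 → pm Dm (rot f s) (e i0) N < 1), False := fun h1 h2 =>
      XMid.clash hU hσ hs2 hn hLoop.pos hx'1 hT1 hx'2 hx'3 h1 h2 hdist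
    rcases hCur.type with hm | hm
    · -- increasing type
      have hne : σ ≠ -1 := by
        intro h
        refine hnot (fun h1 => ?_) (fun _ => hT2 hm)
        rw [h] at h1
        norm_num at h1
      intro t ht i
      obtain ⟨-, -, hT4, -⟩ := hTyM M B π A f f' ℒ Dm τ hE N e l ε' z hLoop hCur t ht i
      exact ⟨fun _ => hT4 hm, fun h => absurd h hne⟩
    · have hne : σ ≠ 1 := by
        intro h
        refine hnot (fun _ => hT3 hm) (fun h1 => ?_)
        rw [h] at h1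
        norm_num at h1
      intro t ht i
      obtain ⟨-, -, -, hT4⟩ := hTyM M B π A f f' ℒ Dm τ hE N e l ε' z hLoop hCur t ht i
      exact ⟨fun h => absurd h hne, fun _ => hT4 hm⟩
  -- the curve does not meet the neighbours
  have hedge : ∀ m ≤ k₁, ∀ w x₀ : ℝ, |w - x₀| ≤ ρ₁ →
      (∀ t : ℝ, |t| ≤ ε → ∃ x ∈ Ioo (x₀ - ρ₁) (x₀ + ρ₁),
          (rot f t)^[n] (Circle.exp x • a) = Circle.exp x • a ∧
          (-σ = 1 → pm Dm (rot f t) (Circle.exp x • a) n < 1) ∧
          (-σ = -1 → 1 < pm Dm (rot f t) (Circle.exp x • a) n)) →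
      w ∈ uIcc 0 (z (i0 + m * n) 0) → False := by
    intro m hm w x₀ hw hCx hwz
    obtain ⟨s, hs, hzs⟩ := hCur.zero (i0 + m * n)
    have hsub : uIcc s 0 ⊆ Ioo (-τ) τ := by
      intro y hy
      have h1 : |y| ≤ |s| := by
        rcases le_total s 0 with h | h
        · rw [uIcc_of_le h] at hy
          rw [abs_of_nonpos hy.2, abs_of_nonpos h]
          linarith [hy.1]
        · rw [uIcc_of_ge h] at hy
          rw [abs_of_nonneg hy.1, abs_of_nonneg h]
          exact hy.2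
      exact (hsmall y (h1.trans hs)).1
    have hiv := intermediate_value_uIcc ((hCur.cont (i0 + m * n)).mono hsub)
    rw [hzs] at hiv
    obtain ⟨t₀, ht₀, hzt⟩ := hiv hwz
    have ht₀s : |t₀| ≤ ε' := by
      have h1 : |t₀| ≤ |s| := by
        rcases le_total s 0 with h | h
        · rw [uIcc_of_le h] at ht₀
          rw [abs_of_nonpos ht₀.2, abs_of_nonpos h]
          linarith [ht₀.1]
        · rw [uIcc_of_ge h] at ht₀
          rw [abs_of_nonneg ht₀.1, abs_of_nonneg h]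
          exact ht₀.2
      exact h1.trans hs
    obtain ⟨htτ, ht2⟩ := hsmall t₀ ht₀s
    obtain ⟨x', hx', hx'1, hx'2, hx'3⟩ := hCx t₀ (by linarith)
    obtain ⟨-, hT1, -, -⟩ :=
      hTyM M B π A f f' ℒ Dm τ hE N e l ε' z hLoop hCur t₀ htτ (i0 + m * n)
    obtain ⟨hA1, hA2⟩ := hA t₀ htτ (i0 + m * n)
    rw [hzt] at hT1 hA1 hA2
    have hdist : dist (Circle.exp w • e (i0 + m * n)) (Circle.exp x' • a) < η := by
      have h1 := hsm (Circle.exp w) (e (i0 + m * n)) a (by linarith [hd m hm])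
      have h2 := hexp w x' a (by
        have h3 : |x₀ - x'| ≤ ρ₁ := by
          rw [abs_sub_comm]
          exact (abs_lt.2 ⟨by linarith [hx'.1], by linarith [hx'.2]⟩).le
        have h4 := abs_sub_le w x₀ x'
        linarith)
      have h3 := dist_triangle (Circle.exp w • e (i0 + m * n)) (Circle.exp w • a)
        (Circle.exp x' • a)
      linarith
    refine XMid.clash hU hσ ht2 hLoop.pos hn hT1 hx'1 hA1 hA2 (fun h => hx'3 (by rw [h]))
      (fun h => hx'2 (by rw [h]; norm_num)) hdist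
  -- Claim B
  have hB : ∀ m ≤ k₁, z (i0 + m * n) 0 ∈ Icc (lL + ρ₁) (rR - ρ₁) := by
    intro m hm
    constructor
    · by_contra hcon
      rw [not_le] at hcon
      refine hedge m hm (lL + ρ₁) lL (by rw [add_sub_cancel_left, abs_of_pos hρ₁0])
        (fun t ht => hCl t (by linarith)) ?_
      rw [uIcc_of_ge (by linarith)]
      exact ⟨hcon.le, by linarith⟩
    · by_contra hcon
      rw [not_le] at hcon
      refine hedge m hm (rR - ρ₁) rR (by
          rw [sub_sub_cancel_left, abs_neg, abs_of_pos hρ₁0])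
        (fun t ht => hCr t (by linarith)) ?_
      rw [uIcc_of_le (by linarith)]
      exact ⟨by linarith, hcon.le⟩
  -- the sequence
  have hS : ∀ m < k₁, |z (i0 + (m + 1) * n) 0 -
      orb (fun j => ℒ (f^[j] a)) 0 n (z (i0 + m * n) 0)| ≤ δ₂ := by
    intro m hm
    have h1 : z (i0 + (m + 1) * n) 0 =
        orb (fun j => l (i0 + m * n + j)) 0 n (z (i0 + m * n) 0) := by
      rw [show i0 + (m + 1) * n = i0 + m * n + n by ring]
      exact XMid.curve_orb hCur h0τ _ _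
    have h2 : ∀ j < n, ∀ x, |(fun j => l (i0 + m * n + j)) j x -
        (fun j => ℒ (f^[j] a)) j x| ≤ δ := by
      intro j hj x
      have h3 : m * n + j < k₁ * n := by
        have : (m + 1) * n ≤ k₁ * n := Nat.mul_le_mul_right n hm
        have h5 : (m + 1) * n = m * n + n := by ring
        omega
      have h4 := hlift (m * n + j) h3 x
      rw [XMid.per_mul_add ha, ← add_assoc] at h4
      exact h4
    obtain ⟨h3, h4⟩ := orb_sandwich hLm h2 0 (z (i0 + m * n) 0) n le_rfl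
    have hmem : z (i0 + m * n) 0 ∈ Icc lL rR := by
      have := hB m hm.le
      exact ⟨by linarith [this.1], by linarith [this.2]⟩
    have h5 := abs_lt.1 (hG3 (0 - δ) (by rw [zero_sub, abs_neg, abs_of_pos hδ0]; linarith) _ hmem)
    have h6 := abs_lt.1 (hG3 (0 + δ) (by rw [zero_add, abs_of_pos hδ0]; linarith) _ hmem)
    rw [h1, abs_le]
    exact ⟨by linarith [h5.1], by linarith [h6.2]⟩
  exact (hD k₁ (fun m => z (i0 + m * n) 0) hS hB m hKm hmK).trans hρ₁ρ

end Pool.Agent.OmegaStability.NC
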