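import Pool.Agent.Work.MP_814647_an.NC.Stmts

/-!
# Item NCy: periodic orbits joining chain equivalent periodic points exclude cycles of pieces
-/

set_option autoImplicit false

open Set Filter Topology Function

noncomputable section

namespace Pool.Agent.OmegaStability.NC

universe u v

open TH TH.NoCycAux in
theorem prf_NCy : NCy.{u} := by
  intro h1 h2 M _ _ F F' hFc hFc' hF hF' hO hJ k hk S hS hinj
  by_contra hcon
  push Not at hcon
  haveI : Fact (1 < k) := ⟨hk⟩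
  have hne : ∀ i, (S i).Nonempty := fun i => by
    obtain ⟨-, -, -, -, z, hz, -⟩ := hS i
    exact ⟨z, hz⟩
  have hinv : ∀ i, F '' S i = S i := fun i => (hS i).2.2.1
  -- one step
  have hstep : ∀ δ > 0, ∀ i, ∀ a ∈ S i, ∀ b ∈ S (i + 1), TH.Chain F δ a b := by
    intro δ hδ i a ha b hb
    obtain ⟨w, hw1, hw2⟩ := hcon i
    obtain ⟨x, hx, c1⟩ := chain_unstable h1 hFc hF hF' (hinv i) hw2 hδ
    obtain ⟨y, hy, c2⟩ := chain_stable (hinv (i + 1)) hw1 hδ
    have c0 := chain_in h1 h2 hFc hO (hS i) ha hx hδ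
    have c3 := chain_in h1 h2 hFc hO (hS (i + 1)) hy hb hδ
    exact h1 M F δ _ _ _ c0 (h1 M F δ _ _ _ c1 (h1 M F δ _ _ _ c2 c3))
  have hiter : ∀ δ > 0, ∀ j : ℕ, ∀ a ∈ S 1, ∀ b ∈ S (1 + (j : ZMod k)), TH.Chain F δ a b := by
    intro δ hδ j
    induction j with
    | zero =>
      intro a ha b hb
      rw [Nat.cast_zero, add_zero] at hb
      exact chain_in h1 h2 hFc hO (hS 1) ha hb hδ
    | succ j ih =>
      intro a ha b hb
      obtain ⟨c, hc⟩ := hne (1 + (j : ZMod k))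
      rw [Nat.cast_succ, ← add_assoc] at hb
      exact h1 M F δ _ _ _ (ih a ha c hc) (hstep δ hδ _ c hc b hb)
  have h10 : ∀ δ > 0, ∀ a ∈ S 1, ∀ b ∈ S 0, TH.Chain F δ a b := by
    intro δ hδ a ha b hb
    apply hiter δ hδ (k - 1) a ha b
    have h3 : (1 + ((k - 1 : ℕ) : ZMod k)) = 0 := by
      have h4 : ((1 + (k - 1) : ℕ) : ZMod k) = 0 := by
        have h5 : 1 + (k - 1) = k := by omega
        rw [h5]
        exact ZMod.natCast_self k
      rw [Nat.cast_add, Nat.cast_one] at h4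
      exact h4
    rw [h3]
    exact hb
  have h01 : ∀ δ > 0, ∀ a ∈ S 0, ∀ b ∈ S 1, TH.Chain F δ a b := by
    intro δ hδ a ha b hb
    apply hstep δ hδ 0 a ha b
    rw [zero_add]
    exact hb
  have hdisj : ∀ s, s ∈ S 0 → s ∉ S 1 := by
    intro s hs0 hs1
    have h3 : S 0 = S 1 :=
      Subset.antisymm (piece_sub hF (hS 0) (hS 1) hs0 hs1) (piece_sub hF (hS 1) (hS 0) hs1 hs0)
    exact zero_ne_one (hinj h3)
  obtain ⟨a', ha'⟩ := hne 0
  obtain ⟨b', hb'⟩ := hne 1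
  have hO0 : S 0 ⊆ Omega F := (hS 0).1
  have hO1 : S 1 ⊆ Omega F := (hS 1).1
  obtain ⟨-, -, -, ⟨U, hU, hU2⟩, -⟩ := hS 0
  obtain ⟨-, -, -, ⟨V, hV, hV2⟩, -⟩ := hS 1
  -- periodic points in the pieces
  have hper : ∀ x ∈ periodicPts F, x ∈ Omega F := by
    intro x hx
    rw [hO]
    exact subset_closure hx
  obtain ⟨a, haU, hap⟩ : ∃ a ∈ U, a ∈ periodicPts F := by
    have h3 : a' ∈ closure (periodicPts F) := by
      rw [← hO]
      exact hO0 ha'
    have h4 : a' ∈ U := by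
      rw [hU2] at ha'
      exact ha'.1
    obtain ⟨a, h5, h6⟩ := mem_closure_iff.1 h3 U hU h4
    exact ⟨a, h5, h6⟩
  obtain ⟨b, hbV, hbp⟩ : ∃ b ∈ V, b ∈ periodicPts F := by
    have h3 : b' ∈ closure (periodicPts F) := by
      rw [← hO]
      exact hO1 hb'
    have h4 : b' ∈ V := by
      rw [hV2] at hb'
      exact hb'.1
    obtain ⟨b, h5, h6⟩ := mem_closure_iff.1 h3 V hV h4
    exact ⟨b, h5, h6⟩
  have ha : a ∈ S 0 := by
    rw [hU2]
    exact ⟨haU, hper a hap⟩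
  have hb : b ∈ S 1 := by
    rw [hV2]
    exact ⟨hbV, hper b hbp⟩
  obtain ⟨e1, he1, hU3⟩ := Metric.isOpen_iff.1 hU a haU
  obtain ⟨e2, he2, hV3⟩ := Metric.isOpen_iff.1 hV b hbV
  obtain ⟨x, hx, i, j, hi, hj⟩ := hJ a hap b hbp (fun δ hδ => h01 δ hδ a ha b hb)
    (fun δ hδ => h10 δ hδ b hb a ha) (min e1 e2) (lt_min he1 he2)
  obtain ⟨N, hN, hxN⟩ := hx
  have hxn : ∀ n : ℕ, F^[n] x ∈ Omega F := by
    intro n
    apply hper
    refine ⟨N, hN, ?_⟩
    show F^[N] (F^[n] x) = F^[n] x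
    rw [← Function.iterate_add_apply, Nat.add_comm, Function.iterate_add_apply, hxN]
  have hx0 : F^[i] x ∈ S 0 := by
    rw [hU2]
    exact ⟨hU3 (Metric.mem_ball.2 (lt_of_lt_of_le hi (min_le_left _ _))), hxn i⟩
  have hx1 : F^[j] x ∈ S 1 := by
    rw [hV2]
    exact ⟨hV3 (Metric.mem_ball.2 (lt_of_lt_of_le hj (min_le_right _ _))), hxn j⟩
  -- a common iterate
  have hc0 : F^[j + i] x ∈ S 0 := by
    rw [Function.iterate_add_apply]
    exact iter_mem (hinv 0) hx0 j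
  have hc1 : F^[j + i] x ∈ S 1 := by
    rw [Nat.add_comm, Function.iterate_add_apply]
    exact iter_mem (hinv 1) hx1 i
  exact hdisj _ hc0 hc1

end Pool.Agent.OmegaStability.NC
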