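import Pool.Agent.Work.MP_814647_an.NC.Stmts

/-!
# Item Nbr: the neighbours of the zero `0` of the return map of a periodic point
-/

set_option autoImplicit false

open Set Filter Topology Function

noncomputable section

namespace Pool.Agent.OmegaStability.NC

open Dens

universe u v

namespace XNbr

/-- The first zero on the right of `0` of a continuous function with separated zeros none of which
is a local extremum. -/
theorem right_half {φ : ℝ → ℝ} (hc : Continuous φ) {τ : ℝ} (hτ : 0 < τ)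
    (hsep : ∀ a b, a < b → φ a = 0 → φ b = 0 → τ ≤ b - a)
    (hext : ∀ a, φ a = 0 → ¬ IsLocalExtr φ a) (h0 : φ 0 = 0) {z : ℝ} (hz : 0 < z)
    (hz0 : φ z = 0) {ρ : ℝ} (hρ : 0 < ρ) (hneg : ∀ x ∈ Ioo 0 ρ, φ x < 0) :
    ∃ r, τ ≤ r ∧ φ r = 0 ∧ (∀ x ∈ Ioo 0 r, φ x < 0) ∧ ∀ x ∈ Ioo r (r + τ), 0 < φ x := by
  set S : Set ℝ := {x | φ x = 0} ∩ Icc τ z with hS
  have hcl : IsClosed {x | φ x = 0} := isClosed_eq hc continuous_const
  have hSc : IsCompact S := isCompact_Icc.inter_left hcl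
  have hτz : τ ≤ z := by
    have := hsep 0 z hz h0 hz0
    linarith
  have hSne : S.Nonempty := ⟨z, hz0, hτz, le_rfl⟩
  have hmem := hSc.sInf_mem hSne
  have hlow : ∀ x ∈ S, sInf S ≤ x := fun x hx => csInf_le hSc.bddBelow hx
  set r := sInf S with hr
  have hr0 : φ r = 0 := hmem.1
  have hτr : τ ≤ r := hmem.2.1
  have hrz : r ≤ z := hmem.2.2
  have hne : ∀ x ∈ Ioo 0 r, φ x ≠ 0 := by
    intro x hx hx0
    have h1 := hsep 0 x hx.1 h0 hx0
    have h2 := hlow x ⟨hx0, by linarith, by linarith [hx.2]⟩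
    exact absurd hx.2 (not_lt.2 h2)
  have hne' : ∀ x ∈ Ioo r (r + τ), φ x ≠ 0 := by
    intro x hx hx0
    have h1 := hsep r x hx.1 hr0 hx0
    linarith [hx.2]
  have hleft : ∀ x ∈ Ioo 0 r, φ x < 0 := by
    intro x hx
    by_contra hcon
    have hpos : 0 < φ x := lt_of_le_of_ne (not_lt.1 hcon) (hne x hx).symm
    set y := min (ρ / 2) (x / 2) with hy
    have hy0 : 0 < y := lt_min (by linarith) (by linarith [hx.1])
    have hyρ : y < ρ := lt_of_le_of_lt (min_le_left _ _) (by linarith)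
    have hyx : y < x := lt_of_le_of_lt (min_le_right _ _) (by linarith [hx.1])
    have hyn := hneg y ⟨hy0, hyρ⟩
    obtain ⟨w, hw, hw0⟩ := intermediate_value_Icc hyx.le hc.continuousOn
      (show (0 : ℝ) ∈ Icc (φ y) (φ x) from ⟨hyn.le, hpos.le⟩)
    have hwx : w < x := by
      rcases hw.2.lt_or_eq with h | h
      · exact h
      · rw [h] at hw0; linarith
    exact hne w ⟨by linarith [hw.1], by linarith [hx.2]⟩ hw0
  refine ⟨r, hτr, hr0, hleft, ?_⟩
  intro x hx
  by_contra hcon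
  have hxn : φ x < 0 := lt_of_le_of_ne (not_lt.1 hcon) (hne' x hx)
  have hall : ∀ y ∈ Ioo r (r + τ), φ y < 0 := by
    intro y hy
    by_contra hcon'
    have hyp : 0 < φ y := lt_of_le_of_ne (not_lt.1 hcon') (hne' y hy).symm
    rcases le_total x y with hxy | hxy
    · obtain ⟨w, hw, hw0⟩ := intermediate_value_Icc hxy hc.continuousOn
        (show (0 : ℝ) ∈ Icc (φ x) (φ y) from ⟨hxn.le, hyp.le⟩)
      exact hne' w ⟨by linarith [hw.1, hx.1], by linarith [hw.2, hy.2]⟩ hw0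
    · obtain ⟨w, hw, hw0⟩ := intermediate_value_Icc' hxy hc.continuousOn
        (show (0 : ℝ) ∈ Icc (φ x) (φ y) from ⟨hxn.le, hyp.le⟩)
      exact hne' w ⟨by linarith [hw.1, hy.1], by linarith [hw.2, hx.2]⟩ hw0
  refine hext r hr0 (Or.inr ?_)
  have hnh : Ioo 0 (r + τ) ∈ 𝓝 r := Ioo_mem_nhds (by linarith) (by linarith)
  filter_upwards [hnh] with y hy
  rw [hr0]
  rcases lt_trichotomy y r with h | h | h
  · exact (hleft y ⟨hy.1, h⟩).le
  · rw [h, hr0]
  · exact (hall y ⟨h, hy.2⟩).le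

/-- Both neighbours of `0`. -/
theorem both {φ : ℝ → ℝ} (hc : Continuous φ) {τ : ℝ} (hτ : 0 < τ)
    (hsep : ∀ a b, a < b → φ a = 0 → φ b = 0 → τ ≤ b - a)
    (hext : ∀ a, φ a = 0 → ¬ IsLocalExtr φ a) (h0 : φ 0 = 0) {z : ℝ} (hz : 0 < z)
    (hz0 : φ z = 0) (hz1 : φ (-z) = 0) {ρ : ℝ} (hρ : 0 < ρ) (hneg : ∀ x ∈ Ioo 0 ρ, φ x < 0)
    (hpos : ∀ x ∈ Ioo (-ρ) 0, 0 < φ x) :
    ∃ l r, l ≤ -τ ∧ τ ≤ r ∧ φ l = 0 ∧ φ r = 0 ∧ (∀ x ∈ Ioo l 0, 0 < φ x) ∧
      (∀ x ∈ Ioo 0 r, φ x < 0) ∧ (∀ x ∈ Ioo (l - τ) l, φ x < 0) ∧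
      ∀ x ∈ Ioo r (r + τ), 0 < φ x := by
  obtain ⟨r, hr1, hr2, hr3, hr4⟩ := right_half hc hτ hsep hext h0 hz hz0 hρ hneg
  have hc' : Continuous fun x => -φ (-x) := (hc.comp continuous_neg).neg
  obtain ⟨r', hl1, hl2, hl3, hl4⟩ := right_half (φ := fun x => -φ (-x)) hc' hτ
    (fun a b hab ha hb => by
      have h1 : φ (-a) = 0 := by linarith [show -φ (-a) = 0 from ha]
      have h2 : φ (-b) = 0 := by linarith [show -φ (-b) = 0 from hb]
      have := hsep (-b) (-a) (by linarith) h2 h1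
      linarith)
    (fun a ha hE => by
      have h1 : φ (-a) = 0 := by linarith [show -φ (-a) = 0 from ha]
      refine hext (-a) h1 ?_
      have hcn : ContinuousAt (fun x : ℝ => -x) (-a) := continuous_neg.continuousAt
      have htd : Tendsto (fun x : ℝ => -x) (𝓝 (-a)) (𝓝 a) := by
        have := hcn.tendsto
        rwa [neg_neg] at this
      rcases hE with hE | hE
      · right
        filter_upwards [htd.eventually hE] with y hy
        have hy' : -φ (-a) ≤ -φ (-(-y)) := hy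
        rw [neg_neg] at hy'
        linarith
      · left
        filter_upwards [htd.eventually hE] with y hy
        have hy' : -φ (-(-y)) ≤ -φ (-a) := hy
        rw [neg_neg] at hy'
        linarith)
    (by show -φ (-0) = 0
        rw [neg_zero, h0, neg_zero])
    hz (by show -φ (-z) = 0
           rw [hz1, neg_zero]) hρ
    (fun x hx => by
      have := hpos (-x) ⟨by linarith [hx.2], by linarith [hx.1]⟩
      show -φ (-x) < 0
      linarith)
  refine ⟨-r', r, by linarith, hr1, by linarith [show -φ (-r') = 0 from hl2], hr2, ?_, hr3, ?_,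
    hr4⟩
  · intro x hx
    have h1 : -φ (-(-x)) < 0 := hl3 (-x) ⟨by linarith [hx.2], by linarith [hx.1]⟩
    rw [neg_neg] at h1
    linarith
  · intro x hx
    have h1 : 0 < -φ (-(-x)) := hl4 (-x) ⟨by linarith [hx.2], by linarith [hx.1]⟩
    rw [neg_neg] at h1
    linarith

/-- The crossings from the signs. -/
theorem crossings {P : ℝ → ℝ} (hP : Continuous P) {τ σ : ℝ} (hτ : 0 < τ) (hσ : σ = 1 ∨ σ = -1)
    (hsep : ∀ a b, a < b → P a = a → P b = b → τ ≤ b - a)
    (hext : ∀ a, P a = a → ¬ IsLocalExtr (fun x => P x - x) a) (h0 : P 0 = 0)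
    (hper : ∀ x, P (x + 2 * Real.pi) = P x + 2 * Real.pi) {ρ : ℝ} (hρ : 0 < ρ)
    (hneg : ∀ x ∈ Ioo 0 ρ, σ * (P x - x) < 0) (hpos : ∀ x ∈ Ioo (-ρ) 0, 0 < σ * (P x - x)) :
    ∃ l r : ℝ, l ≤ -τ ∧ τ ≤ r ∧ Cross P σ 0 τ ∧ Cross P (-σ) l τ ∧ Cross P (-σ) r τ ∧
      (∀ x ∈ Ioo l 0, 0 < σ * (P x - x)) ∧ ∀ x ∈ Ioo 0 r, σ * (P x - x) < 0 := by
  have hpi := Real.pi_pos
  have hσ0 : σ ≠ 0 := by
    rcases hσ with h | h <;> rw [h] <;> norm_num
  have hz : ∀ x, σ * (P x - x) = 0 → P x = x := by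
    intro x hx
    rcases mul_eq_zero.1 hx with h | h
    · exact absurd h hσ0
    · linarith
  have hz' : ∀ x, P x = x → σ * (P x - x) = 0 := by
    intro x hx
    rw [hx, sub_self, mul_zero]
  obtain ⟨l, r, h1, h2, h3, h4, h5, h6, h7, h8⟩ := both (φ := fun x => σ * (P x - x))
    (continuous_const.mul (hP.sub continuous_id)) hτ
    (fun a b hab ha hb => hsep a b hab (hz a ha) (hz b hb))
    (fun a ha hE => by
      refine hext a (hz a ha) ?_
      rcases hσ with h | h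
      · have he : (fun x => σ * (P x - x)) = fun x => P x - x := by
          funext x
          rw [h, one_mul]
        rw [he] at hE
        exact hE
      · have he : (fun x => P x - x) = fun x => -(σ * (P x - x)) := by
          funext x
          rw [h]
          ring
        rw [he]
        exact hE.neg)
    (hz' 0 h0) (z := 2 * Real.pi) (by positivity)
    (hz' _ (by have := hper 0; rw [h0, zero_add] at this; exact this))
    (hz' _ (by
      have := hper (-(2 * Real.pi))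
      rw [neg_add_cancel, h0] at this
      linarith)) hρ hneg hpos
  have hlf : P l = l := hz l h3
  have hrf : P r = r := hz r h4
  refine ⟨l, r, h1, h2, ⟨h0, fun x hx => ?_, fun x hx => ?_⟩, ⟨hlf, fun x hx => ?_, fun x hx => ?_⟩,
    ⟨hrf, fun x hx => ?_, fun x hx => ?_⟩, h5, h6⟩
  · exact h5 x ⟨by linarith [hx.1], hx.2⟩
  · exact h6 x ⟨hx.1, by linarith [hx.2]⟩
  · have h9 : σ * (P x - x) < 0 := h7 x hx
    rw [neg_mul]
    linarith
  · have h9 : 0 < σ * (P x - x) := h5 x ⟨hx.1, by linarith [hx.2]⟩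
    rw [neg_mul]
    linarith
  · have h9 : σ * (P x - x) < 0 := h6 x ⟨by linarith [hx.1], hx.2⟩
    rw [neg_mul]
    linarith
  · have h9 : 0 < σ * (P x - x) := h8 x hx
    rw [neg_mul]
    linarith

/-- The derivative of the return map at the periodic point. -/
theorem loopD_zero {M : Type u} [MulAction Circle M] {f : M → M} {ℒ : M → ℝ → ℝ}
    (hℒ : NLift f ℒ) (Dm : M → ℝ) (a : M) (n : ℕ) :
    loopD Dm (fun j => f^[j] a) (fun j => ℒ (f^[j] a)) 0 n 0 = pm Dm f a n := by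
  unfold loopD pm
  refine Finset.prod_congr rfl fun i _ => ?_
  rw [orb_zero_zero hℒ a i, Circle.exp_zero, one_smul]

end XNbr

theorem prf_Nbr : Nbr.{u, v} := by
  intro M B _ _ _ π A f f' ℒ Dm τ hE a n hn ha
  have hτ := hE.pos
  have hR : RetMap f a n (orb (fun j => ℒ (f^[j] a)) 0 n 0)
      (fun t => orb (fun j => ℒ (f^[j] a)) t n) :=
    (chain_periodic hE.lift hn ha).retMap hE.lift
  have hfam := hR.monoFam
  have hX : NoTangency (fun t => orb (fun j => ℒ (f^[j] a)) t n) τ := hE.notan a n _ _ hn hR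
  have h00 : orb (fun j => ℒ (f^[j] a)) 0 n 0 = 0 := orb_zero_zero hE.lift a n
  have hder : HasDerivAt (orb (fun j => ℒ (f^[j] a)) 0 n) (pm Dm f a n) 0 := by
    rw [← XNbr.loopD_zero hE.lift Dm a n]
    refine orb_hasDerivAt (n := n) (fun j _ θ => ?_) 0 0 n le_rfl
    exact hE.der (f^[j] a) (f (f^[j] a)) (ℒ (f^[j] a)) (hE.lift.cont _)
      (hE.lift.mono _).monotone (hE.lift.map _) θ
  have habs : |(0 : ℝ)| < τ := by rw [abs_zero]; exact hτ
  have hne : pm Dm f a n ≠ 1 := hE.mult a n _ _ hn hR 0 habs 0 h00 _ hder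
  have hPc : Continuous (orb (fun j => ℒ (f^[j] a)) 0 n) := hfam.cont_right 0
  have hsep : ∀ x y, x < y → orb (fun j => ℒ (f^[j] a)) 0 n x = x →
      orb (fun j => ℒ (f^[j] a)) 0 n y = y → τ ≤ y - x := by
    intro x y hxy hx hy
    have := separated_at hfam hX habs hxy hx hy
    rwa [abs_zero, sub_zero] at this
  have hext : ∀ x, orb (fun j => ℒ (f^[j] a)) 0 n x = x →
      ¬ IsLocalExtr (fun x => orb (fun j => ℒ (f^[j] a)) 0 n x - x) x := hX 0 habs
  have hper : ∀ x, orb (fun j => ℒ (f^[j] a)) 0 n (x + 2 * Real.pi) =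
      orb (fun j => ℒ (f^[j] a)) 0 n x + 2 * Real.pi := hfam.per 0
  rcases lt_or_gt_of_ne hne with hm | hm
  · obtain ⟨ρ, hρ, h1, h2⟩ := slope_signs hder h00 hm
    obtain ⟨l, r, h3, h4, h5, h6, h7, h8, h9⟩ := XNbr.crossings hPc hτ (σ := 1) (Or.inl rfl) hsep
      hext h00 hper hρ (fun x hx => by have := h1 x hx; linarith)
      (fun x hx => by have := h2 x hx; linarith)
    exact ⟨1, l, r, Or.inl ⟨rfl, hm⟩, h3, h4, h5, h6, h7, h8, h9⟩
  · obtain ⟨ρ, hρ, h1, h2⟩ := slope_signs' hder h00 hm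
    obtain ⟨l, r, h3, h4, h5, h6, h7, h8, h9⟩ := XNbr.crossings hPc hτ (σ := -1) (Or.inr rfl) hsep
      hext h00 hper hρ (fun x hx => by have := h1 x hx; linarith)
      (fun x hx => by have := h2 x hx; linarith)
    exact ⟨-1, l, r, Or.inr ⟨rfl, hm⟩, h3, h4, h5, h6, h7, h8, h9⟩

end Pool.Agent.OmegaStability.NC
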