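import Pool.Agent.Work.MP_814647_an.NC.Stmts

/-!
# Block NC, item RotE: the rotated maps satisfy the same hypotheses
-/

set_option autoImplicit false

open Set Filter Topology Function

noncomputable section

namespace Pool.Agent.OmegaStability.NC

open Dens

universe u v

namespace XRotE

theorem exp_neg_smul {M : Type u} [MulAction Circle M] (s : ℝ) (x : M) :
    Circle.exp (-s) • Circle.exp s • x = x := by
  rw [smul_smul, ← Circle.exp_add, neg_add_cancel, Circle.exp_zero, one_smul]

theorem exp_smul_neg {M : Type u} [MulAction Circle M] (s : ℝ) (x : M) :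
    Circle.exp s • Circle.exp (-s) • x = x := by
  rw [smul_smul, ← Circle.exp_add, add_neg_cancel, Circle.exp_zero, one_smul]

theorem ret {M : Type u} [MetricSpace M] [MulAction Circle M] {f : M → M} {s : ℝ} {e : M} {n : ℕ}
    {c : ℝ} {G : ℝ → ℝ → ℝ} (h : RetMap (rot f s) e n c G) :
    RetMap f e n (G (0 - s) 0) (fun t => G (t - s)) where
  cont := h.cont.comp (by fun_prop : Continuous fun q : ℝ × ℝ => (q.1 - s, q.2))
  mono t := h.mono _
  map t θ := by
    have h1 := h.map (t - s) θ
    have h2 : (fun y => Circle.exp t • f y) = fun y => Circle.exp (t - s) • rot f s y := by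
      funext y
      rw [rot, smul_smul, ← Circle.exp_add, sub_add_cancel]
    rw [h2]
    exact h1
  per t θ := h.per _ _
  incr t t' θ htt := by
    have h1 := h.incr (t - s) (t' - s) θ (by linarith)
    have h2 : t' - s - (t - s) = t' - t := by ring
    rw [h2] at h1
    exact h1
  base := rfl

end XRotE

open XRotE in
theorem prf_RotE : RotE.{u, v} := by
  intro M B _ _ _ π A f f' ℒ Dm τ E s hs
  have hs' := abs_le.1 hs
  refine
    { act := E.act
      free := E.free
      proj := E.proj
      surj := E.surj
      fibre := E.fibre
      base := E.base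
      shadowing := E.shadowing
      expansive := E.expansive
      cont := ?_
      cont' := ?_
      left := ?_
      right := ?_
      cov := ?_
      lift := ?_
      contD := E.contD
      der := ?_
      pos := ?_
      notan := ?_
      mult := ?_ }
  · exact E.act.comp (continuous_const.prodMk E.cont)
  · exact E.cont'.comp (E.act.comp (continuous_const.prodMk continuous_id))
  · intro x
    show f' (Circle.exp (-s) • Circle.exp s • f x) = x
    rw [exp_neg_smul, E.left]
  · intro x
    show Circle.exp s • f (f' (Circle.exp (-s) • x)) = x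
    rw [E.right, exp_smul_neg]
  · intro y
    rw [← E.cov y]
    exact ((E.fibre _ _).2 ⟨Circle.exp s, rfl⟩).symm
  · refine ⟨E.lift.cont, E.lift.mono, E.lift.zero, E.lift.per, fun y θ => ?_⟩
    show Circle.exp s • f (Circle.exp θ • y) = Circle.exp (ℒ y θ) • Circle.exp s • f y
    rw [E.lift.map, smul_smul, smul_smul, mul_comm]
  · intro e e' L hL hm h
    refine E.der e (Circle.exp (-s) • e') L hL hm fun θ => ?_
    have h1 : Circle.exp s • f (Circle.exp θ • e) = Circle.exp (L θ) • e' := h θ
    rw [← exp_neg_smul s (f (Circle.exp θ • e)), h1, smul_smul, smul_smul, mul_comm]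
  · have := E.pos
    linarith
  · intro e n c G hn hG t ht θ hθ
    have h1 := E.notan e n _ _ hn (ret hG) (t + s) (by
      have ht' := abs_lt.1 ht
      rw [abs_lt]
      constructor <;> linarith [hs'.1, hs'.2, ht'.1, ht'.2]) θ
    simp only [add_sub_cancel_right] at h1
    exact h1 hθ
  · intro e n c G hn hG t ht θ hθ d hd
    have h1 := E.mult e n _ _ hn (ret hG) (t + s) (by
      have ht' := abs_lt.1 ht
      rw [abs_lt]
      constructor <;> linarith [hs'.1, hs'.2, ht'.1, ht'.2]) θ
    simp only [add_sub_cancel_right] at h1
    exact h1 hθ d hd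

end Pool.Agent.OmegaStability.NC
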