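import Pool.Agent.Work.MP_814647_an.NC.Stmts

/-!
# Block NC, item ShU: closed pseudo-orbits are followed by loops
-/

set_option autoImplicit false

open Set Filter Topology Function

noncomputable section

namespace Pool.Agent.OmegaStability.NC

open Dens

universe u v

namespace XShU

variable {M : Type u} {B : Type v} [MetricSpace M] [CompactSpace M] [MetricSpace B]
  [CompactSpace B] [MulAction Circle M]

omit [MetricSpace M] [CompactSpace M] in
lemma unrot {f : M → M} {s a : ℝ} {x e' : M} (h : rot f s x = Circle.exp a • e') :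
    f x = Circle.exp a • (Circle.exp (-s) • e') := by
  have h1 : f x = Circle.exp (-s) • rot f s x := by
    unfold rot
    rw [smul_smul, ← Circle.exp_add, neg_add_cancel, Circle.exp_zero, one_smul]
  rw [h1, h, smul_smul, smul_smul, mul_comm]

omit [MetricSpace M] [CompactSpace M] in
lemma nlift_rot {f : M → M} {ℒ : M → ℝ → ℝ} (h : NLift f ℒ) (s : ℝ) : NLift (rot f s) ℒ where
  cont := h.cont
  mono := h.mono
  zero := h.zero
  per := h.per
  map := fun y θ => by
    unfold rot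
    rw [h.map, smul_smul, smul_smul, mul_comm]

theorem lift_close_rot (hact : Continuous fun p : Circle × M => p.1 • p.2)
    (hfree : ∀ (z : Circle) (y : M), z • y = y → z = 1) {f : M → M} (hf : Continuous f) {ε : ℝ}
    (hε : 0 < ε) (hε1 : ε < 1) : ∃ δ > 0, ∀ (s : ℝ) (e y e' y' : M) (l L : ℝ → ℝ),
      Continuous l → Continuous L →
      (∀ θ : ℝ, rot f s (Circle.exp θ • e) = Circle.exp (l θ) • e') →
      (∀ θ : ℝ, rot f s (Circle.exp θ • y) = Circle.exp (L θ) • y') → dist e y < δ →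
      dist e' y' < δ → |l 0 - L 0| < 2 → ∀ θ, |l θ - L θ| ≤ ε := by
  obtain ⟨δ₁, hδ₁, h1⟩ := lift_close hact hfree hf hε hε1
  obtain ⟨δ₂, hδ₂, h2⟩ := exists_smul_close (M := M) hact hδ₁
  refine ⟨min δ₁ δ₂, by positivity, fun s e y e' y' l L hl hL hle hLy hey hey' h0 => ?_⟩
  exact h1 e y (Circle.exp (-s) • e') (Circle.exp (-s) • y') l L hl hL
    (fun θ => unrot (hle θ)) (fun θ => unrot (hLy θ)) (hey.trans_le (min_le_left _ _))
    (h2 _ _ _ (hey'.trans_le (min_le_right _ _))) h0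

theorem rot_uc (hact : Continuous fun p : Circle × M => p.1 • p.2) {f : M → M}
    (hf : Continuous f) {ε : ℝ} (hε : 0 < ε) : ∃ δ > 0, ∀ (s : ℝ) (x x' : M), dist x x' < δ →
      dist (rot f s x) (rot f s x') < ε := by
  obtain ⟨δ₁, hδ₁, h1⟩ := exists_smul_close (M := M) hact hε
  obtain ⟨δ₂, hδ₂, h2⟩ := Metric.uniformContinuous_iff.1
    (CompactSpace.uniformContinuous_of_continuous hf) δ₁ hδ₁
  exact ⟨δ₂, hδ₂, fun s x x' h => h1 _ _ _ (h2 h)⟩

lemma per_mod {α : Type*} {y : ℕ → α} {N : ℕ} (h : ∀ j, y (j + N) = y j) (j : ℕ) :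
    y (j % N) = y j :=
  Function.Periodic.map_mod_nat (f := y) h j

end XShU

open XShU in
theorem prf_ShU : ShU.{u, v} := by
  intro M B _ _ _ _ _ π A f f' ℒ Dm τ hE ε hε hε1
  obtain ⟨κ, hκ, hacc⟩ := expansive_accuracy hE.base hE.expansive
  obtain ⟨ν, hν1, hν2⟩ := exists_nearest hE.proj hE.surj
  have hπr : ∀ (s : ℝ) (y : M), π (rot f s y) = A (π y) := by
    intro s y
    rw [← hE.cov]
    exact ((hE.fibre _ _).2 ⟨Circle.exp s, rfl⟩).symm
  have hit : ∀ (s : ℝ) (j : ℕ) (y : M), π ((rot f s)^[j] y) = A^[j] (π y) := by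
    intro s j y
    induction j with
    | zero => rfl
    | succ j ih => rw [iterate_succ_apply', hπr, ih, iterate_succ_apply']
  -- coarse constants
  obtain ⟨δ₁, hδ₁, hrot⟩ := exists_small_rotation hE.act hE.free hε
  obtain ⟨δ₂, hδ₂, hlift⟩ := lift_close_rot hE.act hE.free hE.cont hε hε1
  set δ₃ := min δ₁ δ₂ with hδ₃
  have hδ₃0 : 0 < δ₃ := by positivity
  obtain ⟨δ₄, hδ₄, huc⟩ := rot_uc hE.act hE.cont (ε := δ₃ / 4) (by positivity)
  set δ₅ := min (δ₃ / 4) δ₄ with hδ₅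
  have hδ₅0 : 0 < δ₅ := by positivity
  obtain ⟨δ₆, hδ₆, hnear⟩ := exists_near_fibre hE.act hE.proj hE.surj hE.fibre hδ₅0
  obtain ⟨δ₇, hδ₇, hshad⟩ := hE.shadowing (min δ₆ κ) (by positivity)
  obtain ⟨δ₈, hδ₈, hucπ⟩ := Metric.uniformContinuous_iff.1
    (CompactSpace.uniformContinuous_of_continuous hE.proj) δ₇ hδ₇
  -- fine constants
  have hfine : ∀ δ : ℝ, ∃ ℓ : ℕ, 0 < δ → ∀ p ∈ periodicPts A, ∀ q ∈ periodicPts A, ∀ j : ℕ,
      ℓ ≤ j → (∀ i, j ≤ i + ℓ → i ≤ j + ℓ → dist (A^[i] p) (A^[i] q) ≤ κ) →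
      ∀ y : M, π y = A^[j] p → dist y (ν y (A^[j] q)) < δ := by
    intro δ
    by_cases hδ : 0 < δ
    · obtain ⟨δ', hδ', h1⟩ := exists_near_fibre hE.act hE.proj hE.surj hE.fibre hδ
      obtain ⟨ℓ, hℓ⟩ := hacc δ' hδ'
      refine ⟨ℓ, fun _ p hp q hq j hj hcl y hy => ?_⟩
      obtain ⟨y', hy', hy2⟩ := h1 y (A^[j] q) (by rw [hy]; exact hℓ p hp q hq j hj hcl)
      exact (hν2 y _ y' hy').trans_lt hy2
    · exact ⟨0, fun h => absurd h hδ⟩
  choose ℓ₀ hℓ₀ using hfine
  -- thresholds for the fine closeness of lifts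
  have hlf : ∀ δ : ℝ, ∃ δ' : ℝ, 0 < δ → 0 < δ' ∧ δ' ≤ δ ∧
      ∀ (s : ℝ) (e y e' y' : M) (l L : ℝ → ℝ), Continuous l →
      Continuous L → (∀ θ : ℝ, rot f s (Circle.exp θ • e) = Circle.exp (l θ) • e') →
      (∀ θ : ℝ, rot f s (Circle.exp θ • y) = Circle.exp (L θ) • y') → dist e y < δ' →
      dist e' y' < δ' → |l 0 - L 0| < 2 → ∀ θ, |l θ - L θ| ≤ δ := by
    intro δ
    by_cases hδ : 0 < δ
    · obtain ⟨δ', hδ', h1⟩ := lift_close_rot hE.act hE.free hE.cont (ε := min δ (1 / 2))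
        (by positivity) ((min_le_right _ _).trans_lt (by norm_num))
      refine ⟨min δ' δ, fun _ => ⟨by positivity, min_le_right _ _, ?_⟩⟩
      intro s e y e' y' l L hl hL hle hLy h2 h3 h4 θ
      exact (h1 s e y e' y' l L hl hL hle hLy (h2.trans_le (min_le_left _ _))
        (h3.trans_le (min_le_left _ _)) h4 θ).trans (min_le_left _ _)
    · exact ⟨0, fun h => absurd h hδ⟩
  choose δf hδf using hlf
  refine ⟨min δ₈ (δ₃ / 4), by positivity, fun δ => ℓ₀ (δf δ) + 1, ?_⟩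
  intro s N y hN hy hjump
  have hN' := nlift_rot hE.lift s
  obtain ⟨q, hq, hqj0⟩ := hshad N (fun j => π (y j)) hN (by
      show π (y N) = π (y 0)
      rw [← hy 0, Nat.zero_add]) (by
    intro j hj
    rw [← hπr s]
    exact hucπ ((hjump j).trans_le (min_le_left _ _)))
  have hqj : ∀ j, dist (A^[j] q) (π (y j)) < min δ₆ κ := by
    intro j
    have h1 := hqj0 (j % N) (Nat.mod_lt _ hN).le
    rw [iterate_emod hq j] at h1
    have h2 : y (j % N) = y j := per_mod hy j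
    simpa only [h2] using h1
  set e : ℕ → M := fun j => ν (y j) (A^[j] q) with he
  have hπe : ∀ j, π (e j) = A^[j] q := fun j => hν1 _ _
  have hper : ∀ j, e (j + N) = e j := by
    intro j
    show ν (y (j + N)) (A^[j + N] q) = ν (y j) (A^[j] q)
    rw [hy, iterate_add_apply, hq]
  have hey : ∀ j, dist (y j) (e j) < δ₅ := by
    intro j
    obtain ⟨y', hy1, hy2⟩ := hnear (y j) (A^[j] q) (by
      rw [dist_comm]
      exact (hqj j).trans_le (min_le_left _ _))
    exact (hν2 _ _ _ hy1).trans_lt hy2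
  have hfe : ∀ j, dist (e (j + 1)) (rot f s (y j)) < δ₃ / 2 := by
    intro j
    have h1 := hey (j + 1)
    have h2 := (hjump j).trans_le (min_le_right _ _)
    have h3 : δ₅ ≤ δ₃ / 4 := min_le_left _ _
    calc dist (e (j + 1)) (rot f s (y j))
        ≤ dist (e (j + 1)) (y (j + 1)) + dist (y (j + 1)) (rot f s (y j)) :=
          dist_triangle _ _ _
      _ < δ₃ / 2 := by
          rw [dist_comm (e (j + 1)), dist_comm (y (j + 1)) (rot f s (y j))]
          linarith
  have hc : ∀ j, ∃ c : ℝ, |c| ≤ ε ∧ rot f s (e j) = Circle.exp c • e (j + 1) := by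
    intro j
    obtain ⟨z, hz⟩ := (hE.fibre (e (j + 1)) (rot f s (e j))).1 (by
      rw [hπr, hπe, hπe, iterate_succ_apply'])
    have h1 : dist (rot f s (y j)) (rot f s (e j)) < δ₃ / 4 :=
      huc s _ _ ((hey j).trans_le (min_le_right _ _))
    have h2 := hfe j
    obtain ⟨c, hc, hcz⟩ := hrot z (e (j + 1)) (by
      rw [hz]
      calc dist (rot f s (e j)) (e (j + 1))
          ≤ dist (rot f s (e j)) (rot f s (y j)) + dist (rot f s (y j)) (e (j + 1)) :=
            dist_triangle _ _ _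
        _ < δ₃ := by
            rw [dist_comm (rot f s (e j)), dist_comm (rot f s (y j)) (e (j + 1))]
            linarith
        _ ≤ δ₁ := min_le_left _ _)
    exact ⟨c, hc, by rw [hcz, hz]⟩
  choose c₀ hc₀ using hc
  have hcm : ∀ j, |c₀ (j % N)| ≤ ε ∧ rot f s (e j) = Circle.exp (c₀ (j % N)) • e (j + 1) := by
    intro j
    have h1 := hc₀ (j % N)
    have h2 : e (j % N) = e j := per_mod hper j
    have h3 : e (j % N + 1) = e (j + 1) := by
      rw [← per_mod hper (j % N + 1), Nat.mod_add_mod, per_mod hper (j + 1)]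
    rw [h2, h3] at h1
    exact h1
  set c : ℕ → ℝ := fun j => c₀ (j % N) with hcdef
  have hc : ∀ j, |c j| ≤ ε ∧ rot f s (e j) = Circle.exp (c j) • e (j + 1) := hcm
  set l : ℕ → ℝ → ℝ := fun j θ => ℒ (e j) θ + c j with hl
  have hmap : ∀ j, ∀ θ : ℝ, rot f s (Circle.exp θ • e j) = Circle.exp (l j θ) • e (j + 1) := by
    intro j θ
    rw [hN'.map, (hc j).2, smul_smul, ← Circle.exp_add]
  have hlc : ∀ j, Continuous (l j) := fun j => (hN'.cont _).add continuous_const
  have hl00 : ∀ j, l j 0 = c j := by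
    intro j
    simp only [hl]
    rw [hN'.zero, zero_add]
  have hl0 : ∀ j, ∀ w : M, |l j 0 - ℒ w 0| < 2 := by
    intro j w
    rw [hl00, hN'.zero, sub_zero]
    have := (hc j).1
    linarith
  have hcoarse : ∀ j θ, |l j θ - ℒ (y j) θ| ≤ ε := by
    intro j
    have h3 : δ₃ ≤ δ₂ := min_le_right _ _
    have h4 : δ₅ ≤ δ₃ / 4 := min_le_left _ _
    refine hlift s (e j) (y j) (e (j + 1)) (rot f s (y j)) (l j) (ℒ (y j)) (hlc j) (hN'.cont _)
      (hmap j) (hN'.map _) ?_ ?_ (hl0 j _)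
    · rw [dist_comm]
      linarith [hey j]
    · linarith [hfe j]
  refine ⟨e, l, ⟨hN, hper, ?_, ⟨c, fun j θ => rfl⟩, hmap⟩, ?_, hcoarse, ?_⟩
  · intro j
    funext θ
    simp only [hl, hcdef, hper, Nat.add_mod_right]
  · intro j
    rw [hl00]
    exact (hc j).1
  · intro δ hδ a n hn ha i0 J hyJ
    obtain ⟨hδf0, hδfle, hδf'⟩ := hδf δ hδ
    have hπa : π a ∈ periodicPts A := ⟨n, hn, by
      show A^[n] (π a) = π a
      rw [← hit s, ha]⟩
    have hq1per : A^[i0] q ∈ periodicPts A :=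
      ⟨N, hN, Function.IsPeriodicPt.apply_iterate (f := A) (n := N) hq i0⟩
    -- closeness of the points
    have hA1 : ∀ j, ℓ₀ (δf δ) ≤ j → j + ℓ₀ (δf δ) ≤ J →
        dist ((rot f s)^[j] a) (e (i0 + j)) < δf δ := by
      intro j h1 h2
      have h3 := hℓ₀ (δf δ) hδf0 (π a) hπa (A^[i0] q) hq1per j h1 (fun i hi1 hi2 => by
        rw [dist_comm, ← hit s, ← hyJ i (by omega), ← iterate_add_apply, Nat.add_comm i i0]
        exact ((hqj (i0 + i)).trans_le (min_le_right _ _)).le) ((rot f s)^[j] a) (hit s j a)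
      show dist ((rot f s)^[j] a) (ν (y (i0 + j)) (A^[i0 + j] q)) < δf δ
      rw [hyJ j (by omega), Nat.add_comm i0 j, iterate_add_apply]
      exact h3
    intro j h1' h2'
    have h1 : ℓ₀ (δf δ) + 1 ≤ j := h1'
    have h2 : j + (ℓ₀ (δf δ) + 1) ≤ J := h2'
    have h3 := hA1 j (by omega) (by omega)
    have h4 := hA1 (j + 1) (by omega) (by omega)
    refine ⟨by rw [dist_comm]; exact h3.trans_le hδfle, ?_⟩
    refine hδf' s (e (i0 + j)) ((rot f s)^[j] a) (e (i0 + j + 1)) (rot f s ((rot f s)^[j] a))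
      (l (i0 + j)) (ℒ ((rot f s)^[j] a)) (hlc _) (hN'.cont _) (hmap _) (hN'.map _)
      (by rw [dist_comm]; exact h3) ?_ (hl0 _ _)
    rw [dist_comm, ← iterate_succ_apply' (rot f s)]
    exact h4

end Pool.Agent.OmegaStability.NC
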