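import Pool.Agent.Work.MP_814647_an.NC.Stmts

/-!
# Item TyM: the curves of a loop are periodic orbits of the rotated maps

Proof of `TyM`: the points of the curves form periodic orbits of `rot f t`, whose derivative along
the circles is not `1` and has the side of `1` prescribed by the type of the curve.
-/

set_option autoImplicit false

open Set Filter Topology Function

noncomputable section

namespace Pool.Agent.OmegaStability.NC

open Dens

universe u v

namespace XTyM

section Line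

variable {G : ℝ → ℝ → ℝ} {ζ : ℝ → ℝ} {τ t d : ℝ}

theorem incr (hinc : ∀ t t' θ, t ≤ t' → G t θ + (t' - t) ≤ G t' θ)
    (hζ : ContinuousOn ζ (Ioo (-τ) τ)) (hm : StrictMonoOn ζ (Ioo (-τ) τ))
    (hfix : ∀ s ∈ Ioo (-τ) τ, G s (ζ s) = ζ s) (ht : t ∈ Ioo (-τ) τ)
    (hd : HasDerivAt (G t) d (ζ t)) : d ≤ 1 := by
  obtain ⟨t', h1, h2⟩ := exists_between ht.2
  have ht' : t' ∈ Ioo (-τ) τ := ⟨ht.1.trans h1, h2⟩
  have hsub : Icc t t' ⊆ Ioo (-τ) τ := fun s hs => ⟨ht.1.trans_le hs.1, hs.2.trans_lt h2⟩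
  refine deriv_le_one hd (hfix t ht) (hm ht ht' h1) fun x hx => ?_
  obtain ⟨s, hs, rfl⟩ := intermediate_value_Icc h1.le (hζ.mono hsub) ⟨hx.1.le, hx.2⟩
  have hts : t < s := by
    rcases hs.1.lt_or_eq with h | h
    · exact h
    · rw [h] at hx
      exact absurd hx.1 (lt_irrefl _)
  have h3 := hinc t s (ζ s) hs.1
  rw [hfix s (hsub hs)] at h3
  linarith

theorem decr (hinc : ∀ t t' θ, t ≤ t' → G t θ + (t' - t) ≤ G t' θ)
    (hζ : ContinuousOn ζ (Ioo (-τ) τ)) (hm : StrictAntiOn ζ (Ioo (-τ) τ))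
    (hfix : ∀ s ∈ Ioo (-τ) τ, G s (ζ s) = ζ s) (ht : t ∈ Ioo (-τ) τ)
    (hd : HasDerivAt (G t) d (ζ t)) : 1 ≤ d := by
  obtain ⟨t', h1, h2⟩ := exists_between ht.1
  have ht' : t' ∈ Ioo (-τ) τ := ⟨h1, h2.trans ht.2⟩
  have hsub : Icc t' t ⊆ Ioo (-τ) τ := fun s hs => ⟨h1.trans_le hs.1, hs.2.trans_lt ht.2⟩
  refine one_le_deriv hd (hfix t ht) (hm ht' ht h2) fun x hx => ?_
  obtain ⟨s, hs, rfl⟩ := intermediate_value_Icc' h2.le (hζ.mono hsub) ⟨hx.1.le, hx.2⟩
  have hts : s < t := by
    rcases hs.2.lt_or_eq with h | h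
    · exact h
    · rw [h] at hx
      exact absurd hx.1 (lt_irrefl _)
  have h3 := hinc s t (ζ s) hs.2
  rw [hfix s (hsub hs)] at h3
  linarith

end Line

section Loops

variable {M : Type u} [MulAction Circle M] {f : M → M} {ℒ : M → ℝ → ℝ} {N : ℕ} {e : ℕ → M}
  {l : ℕ → ℝ → ℝ} {τ ε t : ℝ} {z : ℕ → ℝ → ℝ}

/-- The shifted loop is a chain. -/
theorem chain (hL : Loop f ℒ N e l) (i : ℕ) :
    Dens.Chain f ℒ N (fun j => e (i + j)) (fun j => l (i + j)) where
  pos := hL.pos
  closed := by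
    show e (i + N) = e (i + 0)
    rw [hL.pere, add_zero]
  form := by
    obtain ⟨c, hc⟩ := hL.form
    exact ⟨fun j => c (i + j), fun j θ => hc (i + j) θ⟩
  map j _ θ := hL.map (i + j) θ

/-- The orbit of a point of the curve. -/
theorem iter (hL : Loop f ℒ N e l) (hC : Curve N l τ ε z) (ht : t ∈ Ioo (-τ) τ) (i k : ℕ) :
    (rot f t)^[k] (Circle.exp (z i t) • e i) = Circle.exp (z (i + k) t) • e (i + k) := by
  induction k with
  | zero => rfl
  | succ k ih =>
    rw [iterate_succ_apply', ih]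
    show Circle.exp t • f (Circle.exp (z (i + k) t) • e (i + k)) = _
    rw [hL.map, smul_smul, ← Circle.exp_add, ← add_assoc, hC.step (i + k) t ht, add_comm t]

/-- The lifts of the orbit of a point of the curve. -/
theorem orb_curve (hC : Curve N l τ ε z) (ht : t ∈ Ioo (-τ) τ) (i j : ℕ) :
    orb (fun j => l (i + j)) t j (z i t) = z (i + j) t := by
  induction j with
  | zero => rfl
  | succ j ih =>
    show l (i + j) (orb (fun j => l (i + j)) t j (z i t)) + t = z (i + j + 1) t
    rw [ih, hC.step (i + j) t ht]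

theorem fixed (hC : Curve N l τ ε z) (i : ℕ) (s : ℝ) (hs : s ∈ Ioo (-τ) τ) :
    orb (fun j => l (i + j)) s N (z i s) = z i s := by
  rw [orb_curve hC hs, hC.per]

end Loops

end XTyM

/-- The curves of a loop are periodic orbits of `rot f t`, contracting or expanding according to
the type. -/
theorem prf_TyM : TyM.{u, v} := by
  intro M B _ _ _ π A f f' ℒ Dm τ hE N e l ε z hL hC t ht i
  have h1 := XTyM.iter hL hC ht i
  have h2 : (rot f t)^[N] (Circle.exp (z i t) • e i) = Circle.exp (z i t) • e i := by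
    rw [h1 N, hC.per, hL.pere]
  have hch := XTyM.chain hL i
  have hret := hch.retMap hE.lift
  have hder : HasDerivAt (orb (fun j => l (i + j)) t N)
      (pm Dm (rot f t) (Circle.exp (z i t) • e i) N) (z i t) := by
    have h3 := orb_hasDerivAt (Dm := Dm) (e := fun j => e (i + j)) (l := fun j => l (i + j))
      (n := N) (fun j _ θ => hE.der (e (i + j)) (e (i + j + 1)) (l (i + j)) (hch.cont hE.lift j)
        (hch.mono hE.lift j).monotone (fun θ => hL.map (i + j) θ) θ) t (z i t) N le_rfl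
    have h4 : loopD Dm (fun j => e (i + j)) (fun j => l (i + j)) t N (z i t) =
        pm Dm (rot f t) (Circle.exp (z i t) • e i) N := by
      unfold loopD pm
      refine Finset.prod_congr rfl fun j _ => ?_
      rw [h1 j, XTyM.orb_curve hC ht]
    rw [h4] at h3
    exact h3
  have hfix := XTyM.fixed hC i
  have hne : pm Dm (rot f t) (Circle.exp (z i t) • e i) N ≠ 1 :=
    hE.mult _ N _ _ hL.pos hret t (abs_lt.2 ht) (z i t) (hfix t ht) _ hder
  refine ⟨h1, h2, fun hm => ?_, fun hm => ?_⟩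
  · exact lt_of_le_of_ne (XTyM.incr (G := fun t => orb (fun j => l (i + j)) t N) hret.incr
      (hC.cont i) (hm i) hfix ht hder) hne
  · exact lt_of_le_of_ne (XTyM.decr (G := fun t => orb (fun j => l (i + j)) t N) hret.incr
      (hC.cont i) (hm i) hfix ht hder) hne.symm

end Pool.Agent.OmegaStability.NC
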