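import Pool.Agent.Work.MP_814647_an.NC.Stmts

/-!
# Item UIS (helper2): contracting and expanding periodic points are far apart, uniformly
-/

set_option autoImplicit false

open Set Filter Topology Function

noncomputable section

namespace Pool.Agent.OmegaStability.NC

open Dens

universe u v

namespace XUIS

/-- The product of the derivatives along a periodic orbit. -/
theorem loopD_eq {M : Type u} [MulAction Circle M] {F : M → M} {ℒ : M → ℝ → ℝ}
    (hℒ : NLift F ℒ) (Dm : M → ℝ) (a : M) (n : ℕ) :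
    loopD Dm (fun j => F^[j] a) (fun j => ℒ (F^[j] a)) 0 n 0 = pm Dm F a n := by
  unfold loopD pm
  refine Finset.prod_congr rfl fun i _ => ?_
  rw [orb_zero_zero hℒ a i, Circle.exp_zero, one_smul]

/-- The cyclic pseudo-orbit made of the orbits of `a` and `b`. -/
theorem cyc {M : Type u} [MetricSpace M] {F : M → M} {a b : M} {n n' : ℕ} (ha : F^[n] a = a)
    (hb : F^[n'] b = b) {η : ℝ} (hη : 0 < η) (hab : dist a b < η) {K K' : ℕ} (hN1 : 0 < K * n)
    (hN2 : 0 < K' * n') : ∃ y : ℕ → M, (∀ j, y (j + (K * n + K' * n')) = y j) ∧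
      (∀ j, dist (F (y j)) (y (j + 1)) < η) ∧ (∀ j < K * n, y j = F^[j] a) ∧
      ∀ j < K' * n', y (K * n + j) = F^[j] b := by
  have haK : F^[K * n] a = a := (show Function.IsPeriodicPt F n a from ha).const_mul K
  have hbK : F^[K' * n'] b = b := (show Function.IsPeriodicPt F n' b from hb).const_mul K'
  obtain ⟨N₁, hN₁⟩ : ∃ N₁, N₁ = K * n := ⟨_, rfl⟩
  obtain ⟨N₂, hN₂⟩ : ∃ N₂, N₂ = K' * n' := ⟨_, rfl⟩
  rw [← hN₁] at haK hN1
  rw [← hN₂] at hbK hN2
  rw [← hN₁, ← hN₂]
  let x : ℕ → M := fun j => if j < N₁ then F^[j] a else F^[j - N₁] b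
  have hxa : ∀ j < N₁, x j = F^[j] a := fun j hj => if_pos hj
  have hxb : ∀ j, x (N₁ + j) = F^[j] b := fun j => by
    have h1 : x (N₁ + j) = F^[N₁ + j - N₁] b := if_neg (by omega)
    rw [h1]
    congr 1
    omega
  have hmod : ∀ j < N₁ + N₂, j % (N₁ + N₂) = j := fun j hj => Nat.mod_eq_of_lt hj
  refine ⟨fun j => x (j % (N₁ + N₂)), ?_, ?_, ?_, ?_⟩
  · intro j
    show x ((j + (N₁ + N₂)) % (N₁ + N₂)) = _
    rw [Nat.add_mod_right]
  · intro j
    show dist (F (x (j % (N₁ + N₂)))) (x ((j + 1) % (N₁ + N₂))) < η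
    obtain ⟨i, hi⟩ : ∃ i, i = j % (N₁ + N₂) := ⟨_, rfl⟩
    have hiN : i < N₁ + N₂ := hi ▸ Nat.mod_lt _ (by omega)
    have h1 : (j + 1) % (N₁ + N₂) = (i + 1) % (N₁ + N₂) := by
      rw [hi, Nat.mod_add_mod]
    rw [h1, ← hi]
    rcases lt_or_ge i N₁ with h2 | h2
    · rw [hxa i h2, ← iterate_succ_apply' F, hmod (i + 1) (by omega)]
      rcases (show i + 1 ≤ N₁ from h2).lt_or_eq with h3 | h3
      · rw [hxa _ h3, dist_self]
        exact hη
      · have h4 : F^[i.succ] a = a := by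
          rw [show i.succ = N₁ from h3]
          exact haK
        have h5 := hxb 0
        rw [Nat.add_zero] at h5
        rw [h4, h3, h5]
        exact hab
    · obtain ⟨i', rfl⟩ := Nat.exists_eq_add_of_le h2
      rw [hxb i', ← iterate_succ_apply' F]
      rcases (show i' + 1 ≤ N₂ by omega).lt_or_eq with h3 | h3
      · rw [hmod (N₁ + i' + 1) (by omega), show N₁ + i' + 1 = N₁ + (i' + 1) by ring, hxb,
          dist_self]
        exact hη
      · have h4 : F^[i'.succ] b = b := by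
          rw [show i'.succ = N₂ from h3]
          exact hbK
        rw [h4, show N₁ + i' + 1 = N₁ + N₂ by omega, Nat.mod_self, hxa 0 hN1, dist_comm]
        exact hab
  · intro j hj
    show x (j % (N₁ + N₂)) = _
    rw [hmod j (by omega), hxa j hj]
  · intro j hj
    show x ((N₁ + j) % (N₁ + N₂)) = _
    rw [hmod _ (by omega), hxb]

end XUIS

theorem prf_UIS : UIS.{u, v} := by
  intro hRot hSh M B _ _ _ _ _ π A f f' ℒ Dm τ hE
  have hτ := hE.pos
  obtain ⟨ε, hεdef⟩ : ∃ ε, ε = min (τ / 32) (1 / 2) := ⟨_, rfl⟩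
  have hε0 : 0 < ε := by rw [hεdef]; positivity
  have hε1 : ε < 1 := by
    rw [hεdef]
    exact (min_le_right _ _).trans_lt (by norm_num)
  have hετ : 16 * ε ≤ τ / 2 := by
    have : ε ≤ τ / 32 := by rw [hεdef]; exact min_le_left _ _
    linarith
  obtain ⟨η, hη, ℓ, hsh⟩ := hSh M B π A f f' ℒ Dm τ hE ε hε0 hε1
  refine ⟨η, hη, fun s hs a b n n' hn hn' ha hb hma hmb => ?_⟩
  by_contra hcon
  have hab : dist a b < η := not_le.1 hcon
  have hE' := hRot M B π A f f' ℒ Dm τ hE s hs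
  obtain ⟨F, hF⟩ : ∃ F, F = rot f s := ⟨_, rfl⟩
  rw [← hF] at ha hb hma hmb hE'
  have hsh' := fun (N : ℕ) (y : ℕ → M) => hsh s N y
  rw [← hF] at hsh'
  refine no_close_pair (a := a) (b := b) (n := n) (n' := n') (ε := ε) hE'.act hE'.free hE'.cont'
    hE'.left hE'.contD hE'.der hE'.lift hE'.notan hE'.mult hn hn' ha hb ?_ ?_ hε0 hετ ℓ ?_
  · rw [XUIS.loopD_eq hE'.lift]
    exact hma
  · rw [XUIS.loopD_eq hE'.lift]
    exact hmb
  · intro K K' hK hK'
    have hN1 : 0 < K * n := Nat.mul_pos hK hn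
    have hN2 : 0 < K' * n' := Nat.mul_pos hK' hn'
    obtain ⟨y, hper, hjump, hya, hyb⟩ := XUIS.cyc ha hb hη hab hN1 hN2
    obtain ⟨e, l, hL, -, hco, hfi⟩ := hsh' (K * n + K' * n') y (by omega) hper hjump
    refine ⟨e, l, ⟨hL.pos, ?_, hL.form, fun j _ θ => hL.map j θ⟩, ?_, ?_, ?_⟩
    · have := hL.pere 0
      rwa [Nat.zero_add] at this
    · intro j hj θ
      have := hco j θ
      rwa [hya j hj] at this
    · intro j hj θ
      have := hco (K * n + j) θ
      rwa [hyb j hj] at this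
    · intro δ hδ
      constructor
      · intro j h1 h2
        have h3 := hfi δ hδ a n hn ha 0 (K * n - 1) (fun i hi => by
          rw [Nat.zero_add]
          exact hya i (by omega)) j h1 (by omega)
        rwa [Nat.zero_add] at h3
      · intro j h1 h2
        exact hfi δ hδ b n' hn' hb (K * n) (K' * n' - 1) (fun i hi => hyb i (by omega)) j h1
          (by omega)

end Pool.Agent.OmegaStability.NC
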