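import Pool.Agent.Work.MP_814647_an.NC.Main
import Pool.Agent.Work.MP_814647_an.NC.I_RotE
import Pool.Agent.Work.MP_814647_an.NC.I_ShU
import Pool.Agent.Work.MP_814647_an.NC.I_UIS
import Pool.Agent.Work.MP_814647_an.NC.I_Bra
import Pool.Agent.Work.MP_814647_an.NC.I_TyM
import Pool.Agent.Work.MP_814647_an.NC.I_Nbr
import Pool.Agent.Work.MP_814647_an.NC.I_Con
import Pool.Agent.Work.MP_814647_an.NC.I_Dri
import Pool.Agent.Work.MP_814647_an.NC.I_Mid
import Pool.Agent.Work.MP_814647_an.NC.I_CyP
import Pool.Agent.Work.MP_814647_an.NC.I_Two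
import Pool.Agent.Work.MP_814647_an.NC.I_NCy

/-!
# No cycles for Omega-stable circle extensions
-/

set_option autoImplicit false

open Set Filter Topology Function
open scoped Manifold ContDiff

noncomputable section

namespace Pool.Agent.OmegaStability.NC

universe u v

variable {m : ℕ} {B : Type v} {M : Type u} [MetricSpace B] [MetricSpace M] [CompactSpace M]
  [ChartedSpace (EuclideanSpace ℝ (Fin m)) M]
  [IsManifold 𝓘(ℝ, EuclideanSpace ℝ (Fin m)) ∞ M] [MulAction Circle M]

/-- An Omega-stable circle extension is topologically hyperbolic on its nonwandering set, splits by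
the circle index and has no cycles. -/
theorem nc_final {π : M → B} (hb : FreeCircleAction (EuclideanSpace ℝ (Fin m)) π) {r : ℕ∞}
    (hr : 1 ≤ r) {A : B → B} (hsh : PeriodicShadowing A) (hexp : ExpansiveOnPeriodic A)
    (f : Diffeo (EuclideanSpace ℝ (Fin m)) M r) (hcov : ∀ y, π (f y) = A (π y))
    (hcirc : PreservesOrientedCircles f) (hst : OmegaStable f) :
    TopologicallyHyperbolic f ∧ SplitsByCircleIndex (EuclideanSpace ℝ (Fin m)) f ∧
      HasNoCycles f :=
  nc_main prf_RotE prf_ShU prf_UIS prf_Bra prf_TyM prf_Nbr prf_Con prf_Dri prf_Mid prf_CyP prf_Two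
    prf_NCy hb hr hsh hexp f hcov hcirc hst

end Pool.Agent.OmegaStability.NC
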