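import Pool.Agent.Work.MP_814647_an.NC.Stmts

/-!
# Item Two: periodic points joined by chains in both directions are joined by periodic orbits
-/

set_option autoImplicit false

open Set Filter Topology Function

noncomputable section

namespace Pool.Agent.OmegaStability.NC

open Dens

universe u v

namespace XTwo

theorem rot_zero {M : Type u} [MulAction Circle M] (f : M → M) : rot f 0 = f := by
  funext y
  show Circle.exp 0 • f y = f y
  rw [Circle.exp_zero, one_smul]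

theorem iter_mul {M : Type u} {f : M → M} {a : M} {n : ℕ} (ha : f^[n] a = a) (k : ℕ) :
    f^[k * n] a = a := by
  rw [mul_comm, Function.iterate_mul]
  exact Function.iterate_fixed ha k

theorem iter_mul_add {M : Type u} {f : M → M} {a : M} {n : ℕ} (ha : f^[n] a = a) (k j : ℕ) :
    f^[k * n + j] a = f^[j] a := by
  rw [add_comm, Function.iterate_add_apply, iter_mul ha]

/-- The shifted loop is a chain. -/
theorem loop_chain {M : Type u} [MulAction Circle M] {f : M → M} {ℒ : M → ℝ → ℝ} {N : ℕ}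
    {e : ℕ → M} {l : ℕ → ℝ → ℝ} (h : Loop f ℒ N e l) (i : ℕ) :
    Dens.Chain f ℒ N (fun j => e (i + j)) (fun j => l (i + j)) where
  pos := h.pos
  closed := by
    show e (i + N) = e (i + 0)
    rw [h.pere, add_zero]
  form := by
    obtain ⟨c, hc⟩ := h.form
    exact ⟨fun j => c (i + j), fun j θ => hc (i + j) θ⟩
  map j _ θ := h.map (i + j) θ

/-- The conclusion of `Mid` on the window which starts at `i1`. -/
theorem half {M : Type u} [MetricSpace M] {f : M → M} {ℒ : M → ℝ → ℝ} {a : M} {n : ℕ}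
    (hn : 0 < n) (ha : f^[n] a = a) {e : ℕ → M} {l : ℕ → ℝ → ℝ} {z : ℕ → ℝ → ℝ}
    {δ δ' ρ₂ : ℝ} (hδ : δ ≤ δ') {ℓ₀ K i1 : ℕ}
    (hfine : ∀ i, ℓ₀ ≤ i → i + ℓ₀ ≤ (2 * ℓ₀ + 2 * K) * n →
      dist (e (i1 + i)) (f^[i] a) < δ ∧ ∀ θ, |l (i1 + i) θ - ℒ (f^[i] a) θ| ≤ δ)
    (hmid : ∀ i0 k₁ : ℕ, (∀ m ≤ k₁, dist (e (i0 + m * n)) a < δ') →
        (∀ j < k₁ * n, ∀ θ, |l (i0 + j) θ - ℒ (f^[j] a) θ| ≤ δ') →
        ∀ m, K ≤ m → m + K ≤ k₁ → |z (i0 + m * n) 0| ≤ ρ₂) :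
    ∃ i, |z i 0| ≤ ρ₂ ∧ dist (e i) a < δ := by
  have hln : ℓ₀ ≤ ℓ₀ * n := Nat.le_mul_of_pos_right _ hn
  have key : ∀ m ≤ 2 * K, dist (e (i1 + ℓ₀ * n + m * n)) a < δ := by
    intro m hm
    have h1 : m * n ≤ 2 * K * n := Nat.mul_le_mul_right n hm
    have h2 := (hfine (ℓ₀ * n + m * n) (by omega) (by nlinarith)).1
    rw [iter_mul_add ha, iter_mul ha, ← add_assoc] at h2
    exact h2
  refine ⟨i1 + ℓ₀ * n + K * n, ?_, key K (by omega)⟩
  refine hmid (i1 + ℓ₀ * n) (2 * K) (fun m hm => (key m hm).trans_le hδ) ?_ K le_rfl (by omega)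
  intro j hj θ
  have h2 := (hfine (ℓ₀ * n + j) (by omega) (by nlinarith)).2 θ
  rw [iter_mul_add ha, ← add_assoc] at h2
  exact h2.trans hδ

end XTwo

open XTwo in
theorem prf_Two : Two.{u, v} := by
  intro hShU hBra hTyM hCyP M B _ _ _ _ _ π A f f' ℒ Dm τ hE hMid a ha b hb hab hba ρ hρ
  obtain ⟨n, hn, hna⟩ := ha
  obtain ⟨n', hn', hnb⟩ := hb
  have hna' : f^[n] a = a := hna
  have hnb' : f^[n'] b = b := hnb
  have hτ := hE.pos
  obtain ⟨ρ₂, hρ₂, hrot⟩ := exists_rot_close (M := M) hE.act (ε := ρ / 2) (by positivity)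
  obtain ⟨εa, hεa, δa, hδa, Ka, hKa⟩ := hMid a n hn hna' (ρ₂ / 2) (by positivity)
  obtain ⟨εb, hεb, δb, hδb, Kb, hKb⟩ := hMid b n' hn' hnb' (ρ₂ / 2) (by positivity)
  obtain ⟨ε, hε, hε1, hε2, hε3, hε4⟩ :
      ∃ ε : ℝ, 0 < ε ∧ ε ≤ εa ∧ ε ≤ εb ∧ ε < 1 ∧ 3 * ε < τ := by
    refine ⟨min (min εa εb) (min (1 / 2) (τ / 4)), by positivity,
      (min_le_left _ _).trans (min_le_left _ _), (min_le_left _ _).trans (min_le_right _ _), ?_, ?_⟩
    · have := (min_le_right (min εa εb) (min (1 / 2) (τ / 4))).trans (min_le_left _ _)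
      linarith
    · have := (min_le_right (min εa εb) (min (1 / 2) (τ / 4))).trans (min_le_right _ _)
      linarith
  obtain ⟨δ, hδ, hδ1, hδ2, hδ3⟩ : ∃ δ : ℝ, 0 < δ ∧ δ ≤ δa ∧ δ ≤ δb ∧ δ ≤ ρ / 2 := by
    refine ⟨min (min δa δb) (ρ / 2), by positivity, (min_le_left _ _).trans (min_le_left _ _),
      (min_le_left _ _).trans (min_le_right _ _), min_le_right _ _⟩
  obtain ⟨η, hη, ℓ, hℓ⟩ := hShU M B π A f f' ℒ Dm τ hE ε hε hε3
  obtain ⟨N, y, hN, hyper, hyjump, hya, i₁, hyb⟩ := hCyP M f η a b n n' (2 * ℓ δ + 2 * Ka)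
    (2 * ℓ δ + 2 * Kb) hη hn hn' hna' hnb' (hab η hη) (hba η hη)
  obtain ⟨e, l, hL, hl0, -, hfine⟩ := hℓ 0 N y hN hyper (by rw [rot_zero]; exact hyjump)
  rw [rot_zero] at hL hfine
  obtain ⟨z, hz⟩ := hBra N l τ ε hN hL.perl (fun j => (loop_chain hL j).cont hE.lift 0)
    (fun j => (loop_chain hL j).mono hE.lift 0) (fun j => (loop_chain hL j).per hE.lift 0)
    hε.le hε4 hl0 (fun i => hE.notan _ N _ _ hN ((loop_chain hL i).retMap hE.lift))
  obtain ⟨h1, h2, -, -⟩ := hTyM M B π A f f' ℒ Dm τ hE N e l ε z hL hz 0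
    ⟨by linarith, hτ⟩ 0
  rw [rot_zero] at h1 h2
  obtain ⟨i, hi, hi'⟩ := half hn hna' hδ1
    (hfine δ hδ a n hn hna' 0 _ (fun i hi => by rw [zero_add]; exact hya i hi))
    (hKa N e l ε z hε1 hL hz)
  obtain ⟨j, hj, hj'⟩ := half hn' hnb' hδ2 (hfine δ hδ b n' hn' hnb' i₁ _ hyb)
    (hKb N e l ε z hε2 hL hz)
  have close : ∀ (c : M) (k : ℕ), |z k 0| ≤ ρ₂ / 2 → dist (e k) c < δ →
      dist (f^[k] (Circle.exp (z 0 0) • e 0)) c < ρ := by
    intro c k hk hk'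
    have h3 := h1 k
    rw [zero_add] at h3
    rw [h3]
    calc dist (Circle.exp (z k 0) • e k) c
        ≤ dist (Circle.exp (z k 0) • e k) (e k) + dist (e k) c := dist_triangle _ _ _
      _ < ρ / 2 + ρ / 2 := add_lt_add (hrot _ _ (by linarith)) (hk'.trans_le hδ3)
      _ = ρ := by ring
  exact ⟨Circle.exp (z 0 0) • e 0, ⟨N, hN, h2⟩, i, j, close a i hi hi', close b j hj hj'⟩

end Pool.Agent.OmegaStability.NC
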