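import Pool.Agent.Work.MP_814647_an.NC.Stmts

/-!
# No cycles for Omega-stable circle extensions: assembly
-/

set_option autoImplicit false

open Set Filter Topology Function
open scoped Manifold ContDiff

noncomputable section

namespace Pool.Agent.OmegaStability.NC

open Dens

universe u v

variable {m : ℕ} {B : Type v} {M : Type u} [MetricSpace B] [MetricSpace M] [CompactSpace M]
  [ChartedSpace (EuclideanSpace ℝ (Fin m)) M]
  [IsManifold 𝓘(ℝ, EuclideanSpace ℝ (Fin m)) ∞ M] [MulAction Circle M]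

/-- An Omega-stable circle extension satisfies the standing hypotheses. -/
theorem exists_ext {π : M → B} (hb : FreeCircleAction (EuclideanSpace ℝ (Fin m)) π) {r : ℕ∞}
    (hr : 1 ≤ r) {A : B → B} (hsh : PeriodicShadowing A) (hexp : ExpansiveOnPeriodic A)
    (f : Diffeo (EuclideanSpace ℝ (Fin m)) M r) (hcov : ∀ y, π (f y) = A (π y))
    (hcirc : PreservesOrientedCircles f) (hst : OmegaStable f) :
    CompactSpace B ∧ ∃ (ℒ : M → ℝ → ℝ) (Dm : M → ℝ) (τ : ℝ), Ext π A f f.symm ℒ Dm τ := by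
  have ha := hb.smooth_action
  have hfree := hb.free
  have hact : Continuous fun p : Circle × M => p.1 • p.2 := hb.smooth_action.continuous
  have hcomp : CompactSpace B := by
    refine ⟨?_⟩
    rw [← hb.surjective.range_eq]
    exact isCompact_range hb.continuous_proj
  have hquot : IsQuotientMap π :=
    (hb.continuous_proj.isClosedMap).isQuotientMap hb.continuous_proj hb.surjective
  have hAc : Continuous A := by
    rw [hquot.continuous_iff]
    have : A ∘ π = π ∘ f := by
      funext y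
      exact (hcov y).symm
    rw [this]
    exact hb.continuous_proj.comp f.continuous
  obtain ⟨Dm, hD, hDm⟩ := exists_fibreDeriv ha hfree hr f
  obtain ⟨ℒ, hℒ⟩ := exists_nlift (f := (⇑f : M → M)) hfree f.injective hcirc
  obtain ⟨τ, hτ, hX, hN⟩ := exists_tau ha hfree hr f hst
  exact ⟨hcomp, ℒ, Dm, τ, ⟨hact, hfree, hb.continuous_proj, hb.surjective, hb.fibre, hAc, hsh,
    hexp, f.continuous, f.symm.continuous, f.symm_apply_apply, f.apply_symm_apply, hcov, hℒ, hD,
    hDm, hτ, hX, hN⟩⟩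

/-- An Omega-stable circle extension has no cycles. -/
theorem nc_main (hRotE : RotE.{u, v}) (hShU : ShU.{u, v}) (hUIS : UIS.{u, v}) (hBra : Bra)
    (hTyM : TyM.{u, v}) (hNbr : Nbr.{u, v}) (hCon : Con.{u, v}) (hDri : Dri) (hMid : Mid.{u, v})
    (hCyP : CyP.{u}) (hTwo : Two.{u, v}) (hNCy : NCy.{u}) {π : M → B}
    (hb : FreeCircleAction (EuclideanSpace ℝ (Fin m)) π) {r : ℕ∞}
    (hr : 1 ≤ r) {A : B → B} (hsh : PeriodicShadowing A) (hexp : ExpansiveOnPeriodic A)
    (f : Diffeo (EuclideanSpace ℝ (Fin m)) M r) (hcov : ∀ y, π (f y) = A (π y))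
    (hcirc : PreservesOrientedCircles f) (hst : OmegaStable f) :
    TopologicallyHyperbolic f ∧ SplitsByCircleIndex (EuclideanSpace ℝ (Fin m)) f ∧
      HasNoCycles f := by
  obtain ⟨h1, h2, -⟩ := TH.final_main hb hr hsh hexp f hcov hcirc hst
  refine ⟨h1, h2, ?_⟩
  obtain ⟨hcomp, ℒ, Dm, τ, hE⟩ := exists_ext hb hr hsh hexp f hcov hcirc hst
  have hU := hUIS hRotE hShU M B π A f f.symm ℒ Dm τ hE
  have hM := hMid hTyM hNbr hCon hDri M B π A f f.symm ℒ Dm τ hE hU
  have hT := hTwo hShU hBra hTyM hCyP M B π A f f.symm ℒ Dm τ hE hM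
  exact hNCy TH.prf_ChTr TH.prf_Rev M f f.symm f.continuous f.symm.continuous f.symm_apply_apply
    f.apply_symm_apply h1.1 hT

end Pool.Agent.OmegaStability.NC
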