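import Pool.Agent.Work.MP_814647_an.NC.Final
import Pool.Agent.Work.MP_814647_an.OS.I_Uq
import Pool.Agent.Work.MP_814647_an.OS.I_Br
import Pool.Agent.Work.MP_814647_an.OS.I_SwC
import Pool.Agent.Work.MP_814647_an.OS.I_SwE
import Pool.Agent.Work.MP_814647_an.OS.I_Dif
import Pool.Agent.Work.MP_814647_an.OS.I_Jen
import Pool.Agent.Work.MP_814647_an.OS.I_Int
import Pool.Agent.Work.MP_814647_an.OS.I_Mea

/-!
# Omega-stable circle extensions: topological hyperbolicity, no cycles, mean hyperbolicity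
-/

set_option autoImplicit false

open Set Filter Topology Function
open scoped Manifold ContDiff

noncomputable section

namespace Pool.Agent.OmegaStability.NC

universe u v

variable {m : ℕ} {B : Type v} {M : Type u} [MetricSpace B] [MetricSpace M] [CompactSpace M]
  [ChartedSpace (EuclideanSpace ℝ (Fin m)) M]
  [IsManifold 𝓘(ℝ, EuclideanSpace ℝ (Fin m)) ∞ M] [MulAction Circle M]

/-- All conclusions about an Omega-stable circle extension. -/
theorem stable_final {π : M → B} (hb : FreeCircleAction (EuclideanSpace ℝ (Fin m)) π) {r : ℕ∞}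
    (hr : 1 ≤ r) {A : B → B} (hsh : PeriodicShadowing A) (hexp : ExpansiveOnPeriodic A)
    (f : Diffeo (EuclideanSpace ℝ (Fin m)) M r) (hcov : ∀ y, π (f y) = A (π y))
    (hcirc : PreservesOrientedCircles f) (hst : OmegaStable f) :
    TopologicallyHyperbolic f ∧ SplitsByCircleIndex (EuclideanSpace ℝ (Fin m)) f ∧
      HasNoCycles f ∧ MeanHyperbolicity (EuclideanSpace ℝ (Fin m)) f := by
  obtain ⟨h1, h2, h3⟩ := nc_final hb hr hsh hexp f hcov hcirc hst
  exact ⟨h1, h2, h3, OS.pr_Mea (OS.pr_Br OS.pr_Uq) (OS.pr_Int OS.pr_SwC OS.pr_SwE OS.pr_Dif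
    OS.pr_Jen) m M hb.smooth_action hb.free r hr f hcirc hst⟩

end Pool.Agent.OmegaStability.NC
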