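import Pool.Agent.Work.MP_814647_an.NC.Defs

/-!
# No cycles for Omega-stable circle extensions: the items

Every docstring is a complete proof. `Dens.orb l t n x` is the orbit of `x` under the maps
`l j + t`, `MonoFam`, `NoTangency`, `RetMap`, `NLift`, `Dens.Chain`, `Passage` are in the files
`Dens4.lean`, `Idx2.lean`, `Idx3.lean`, `Idx6.lean` (folder `Work/MP_814647_an`, all landed).
The chains with jumps of `TH.Stmts` are `TH.Chain`.
-/

set_option autoImplicit false

open Set Filter Topology Function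

noncomputable section

namespace Pool.Agent.OmegaStability.NC

open Dens

universe u v

/-- Item RotE (EASY-MEDIUM). The rotated maps satisfy the same hypotheses with `τ / 2`, the same
lifts and the same derivative.
Proof. `rot f s = exp(is) . f`, inverse `x ↦ f' (exp(-is) . x)`. `act free proj surj fibre base
shadowing expansive contD`: unchanged. `cov`: `π (z • y) = π y` by `fibre`. `lift`:
`exp(is) . f (exp(iθ) . y) = exp(is) . exp(i ℒ y θ) . f y = exp(i ℒ y θ) . exp(is) . f y`.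
`der`: if `rot f s (exp(iθ) . e) = exp(i L θ) . e'` for all `θ` then
`f (exp(iθ) . e) = exp(i L θ) . (exp(-is) . e')`: use `der` for `f` and this point. `notan`: if
`RetMap (rot f s) e n c G` then `G' t = G (t - s)` is a `RetMap` of `f` for the constant
`G (-s) 0`: `exp(it) . f = exp(i(t-s)) . rot f s`; the other clauses are immediate. So
`NoTangency G' τ`, and `|t| < τ/2` gives `|t + s| < τ`: apply it at the parameter `t + s`. `mult`:
the same. -/
def RotE : Prop :=
  ∀ (M : Type u) (B : Type v) [MetricSpace M] [MetricSpace B] [MulAction Circle M]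
    (π : M → B) (A : B → B) (f f' : M → M) (ℒ : M → ℝ → ℝ) (Dm : M → ℝ) (τ : ℝ),
    Ext π A f f' ℒ Dm τ → ∀ s : ℝ, |s| ≤ τ / 2 →
      Ext π A (rot f s) (fun x => f' (Circle.exp (-s) • x)) ℒ Dm (τ / 2)

/-- Item ShU (MEDIUM, long but a copy of `Dens.exists_shadow`, file `Idx4.lean`). Closed
pseudo-orbits of the maps `rot f s`, uniformly in `s`, are followed by loops.
Proof. This is the proof of `exists_shadow` with `pseudo` replaced by the given cyclic
pseudo-orbit `y`, and constants which do not depend on `s` (rotations are uniformly continuous in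
`y`, uniformly in `s`: `Dens.exists_smul_close`). In detail. `κ`, `hacc` from
`Dens.expansive_accuracy`, `ν` from `Dens.exists_nearest`. `δ₁` from `exists_small_rotation` for
`ε`; `δ₂` : closeness of lifts, from `lift_close` for `f` and `ε` (`δ₂'` say): if
`rot f s (exp(iθ) . e) = exp(i l θ) . e'` and the same for `y, L, y'`, then
`f (exp(iθ) . e) = exp(i l θ) . (exp(-is) . e')` etc., so `lift_close` applies if `dist e y < δ₂'`
and `dist (exp(-is) . e') (exp(-is) . y') < δ₂'`, and the second follows from `dist e' y' < δ₂''`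
by `exists_smul_close`; put `δ₂ = min δ₂' δ₂''`. `δ₃ = min δ₁ δ₂`; `δ₄` with
`dist x x' < δ₄ → dist (rot f s x) (rot f s x') < δ₃/4` for all `s` (uniform continuity of `f`
and `exists_smul_close`); `δ₅ = min (δ₃/4) δ₄`; `δ₆` from `exists_near_fibre` for `δ₅`; `δ₇` from
`shadowing` for `min δ₆ κ`; `δ₈` from the uniform continuity of `π` for `δ₇`;
`η = min δ₈ (δ₃/4)`; `ℓ` as in `exists_shadow` with the version of `lift_close` above (all `s` at
the same time). Given `s, N, y`: the base points `π (y j)` are a periodic `δ₇`-pseudo-orbit of `A`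
(`π (rot f s x) = A (π x)`), so there is `q` with `A^N q = q`, `dist (A^j q) (π (y j)) < min δ₆ κ`
for `j ≤ N`, hence for all `j` (both sides are `N`-periodic in `j`). `e j = ν (y j) (A^j q)` for
`j < N` and extended `N`-periodically: simply `e j = ν (y j) (A^j q)` for all `j`, which is
`N`-periodic. `dist (y j) (e j) < δ₅`; `rot f s (e j)` and `e (j+1)` have the same projection, and
their distance is `< δ₁`, so `rot f s (e j) = exp(i c_j) . e (j+1)` with `|c_j| ≤ ε`; choose `c`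
`N`-periodic (choose `c₀ j` for `j < N` and put `c j = c₀ (j % N)`; the equation at `j` is the one
at `j % N` because `e` is periodic). `l j θ = ℒ (e j) θ + c j`; `l j 0 = c j`. Coarse closeness:
lift closeness. Fine closeness: let `y (i0+i) = (rot f s)^i a` for `i ≤ J`; apply `hacc` to the
periodic points `π a` and `A^i0 q` of `A` at the times `i`, `i+1` (the times between `i - ℓ` and
`i + 1 + ℓ` are in `[0, J]` if the final `ℓ δ` is the old one plus one), as in `exists_shadow`.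
(For `i + 1`: `y (i0 + i + 1) = rot f s (y (i0+i))` since `i + 1 ≤ J`.) -/
def ShU : Prop :=
  ∀ (M : Type u) (B : Type v) [MetricSpace M] [CompactSpace M] [MetricSpace B] [CompactSpace B]
    [MulAction Circle M]
    (π : M → B) (A : B → B) (f f' : M → M) (ℒ : M → ℝ → ℝ) (Dm : M → ℝ) (τ : ℝ),
    Ext π A f f' ℒ Dm τ → ∀ ε : ℝ, 0 < ε → ε < 1 → ∃ η > 0, ∃ ℓ : ℝ → ℕ,
      ∀ (s : ℝ) (N : ℕ) (y : ℕ → M), 0 < N → (∀ j, y (j + N) = y j) →
      (∀ j, dist (rot f s (y j)) (y (j + 1)) < η) → ∃ (e : ℕ → M) (l : ℕ → ℝ → ℝ),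
        Loop (rot f s) ℒ N e l ∧ (∀ j, |l j 0| ≤ ε) ∧ (∀ j θ, |l j θ - ℒ (y j) θ| ≤ ε) ∧
        ∀ δ > 0, ∀ (a : M) (n : ℕ), 0 < n → (rot f s)^[n] a = a → ∀ i0 J : ℕ,
          (∀ i ≤ J, y (i0 + i) = (rot f s)^[i] a) → ∀ i, ℓ δ ≤ i → i + ℓ δ ≤ J →
            dist (e (i0 + i)) ((rot f s)^[i] a) < δ ∧
              ∀ θ, |l (i0 + i) θ - ℒ ((rot f s)^[i] a) θ| ≤ δ

/-- Item UIS (MEDIUM). Contracting and expanding periodic points of the same map `rot f s` are
far apart, uniformly in `|s| ≤ τ/2`.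
Proof. Let `ε = min (τ/32) (1/2)` and take `η`, `ℓ` from `ShU` for `ε`. Let `|s| ≤ τ/2`,
`F = rot f s`, `a, b` with `pm Dm F a n < 1 < pm Dm F b n'` and suppose `dist a b < η`. By `RotE`
the hypotheses of `Dens.no_close_pair` (file `Idx8.lean`) hold for `F`, with
`f' := fun x => f' (exp(-is) . x)`, `τ := τ/2` and `16 ε ≤ τ/2`; `hda`, `hdb`: `loopD` of the
chain of the orbit of `a` at the parameter `0` and the point `0` is `pm Dm F a n`, because
`orb (fun j => ℒ (F^j a)) 0 i 0 = 0` (`Dens.orb_zero_zero`) and `exp 0 = 1`. Its hypothesis `hsh`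
(for the function `ℓ'= ℓ`): given `K, K' > 0`, `N₁ = K n`, `N = N₁ + K' n'`, let
`y j = Dens.pseudo F a b N₁ N (j % N)` (so `y j = F^j a` for `j < N₁`, `y (N₁ + j) = F^j b` for
`j < K' n'`, `y (j + N) = y j`). All jumps are `≤ dist a b < η` (see `hjump` in the proof of
`exists_shadow`: the jumps are `0` except at `j = N₁ - 1`, where `F^N₁ a = a` is followed by `b`,
and at `j = N - 1`, where `F^(K' n') b = b` is followed by `a`). `ShU` gives the loop `e, l`;
`Dens.Chain F ℒ N e l` is a restriction of `Loop`; coarse closeness: `y j = F^j a` for `j < N₁`;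
fine closeness: `i0 = 0`, `J = N₁ - 1`, and `i0 = N₁`, `J = K' n' - 1`. -/
def UIS : Prop :=
  RotE.{u, v} → ShU.{u, v} →
  ∀ (M : Type u) (B : Type v) [MetricSpace M] [CompactSpace M] [MetricSpace B] [CompactSpace B]
    [MulAction Circle M]
    (π : M → B) (A : B → B) (f f' : M → M) (ℒ : M → ℝ → ℝ) (Dm : M → ℝ) (τ : ℝ),
    Ext π A f f' ℒ Dm τ → ∃ η > 0, ∀ s : ℝ, |s| ≤ τ / 2 → ∀ (a b : M) (n n' : ℕ), 0 < n →
      0 < n' → (rot f s)^[n] a = a → (rot f s)^[n'] b = b → pm Dm (rot f s) a n < 1 →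
      1 < pm Dm (rot f s) b n' → η ≤ dist a b

/-- Item Bra (MEDIUM). Curves of fixed points of a cyclic sequence of lifts, purely about the line.
Write `G i t x = orb (fun j => l (i + j)) t N x`.
Proof. (1) For fixed `x`, `t ↦ G i t x` is continuous and `G i t' x ≥ G i t x + (t' - t)` for
`t ≤ t'` (as in the last lines of `Dens.Chain.retMap`), so there is exactly one `T i x` with
`G i (T i x) x = x`. `T i x < t ↔ x < G i t x` and `t < T i x ↔ G i t x < x`, so `T i` is
continuous, and `T i (x + 2π) = T i x`. For `x ≤ y`: `T i y ≤ T i x + (y - x)`, because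
`G i (T i x + (y-x)) y ≥ G i (T i x) y + (y-x) ≥ G i (T i x) x + (y-x) = y`.
(2) If `|T i x| < τ` then `T i` has no local extremum at `x`: if `T i y ≤ T i x = t` for `y` near
`x` then `G i t y ≥ y` near `x` with equality at `x`, a local minimum of `G i t y - y`, excluded by
`NoTangency`; a local minimum of `T i` is a local maximum of `G i t y - y`.
(3) Let `I i` be the connected component of `0` in the open set `{x | |T i x| < τ}`
(`connectedComponentIn`, or `(α, β)` with `α` the largest point `≤ 0`, `β` the smallest point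
`≥ 0` with `|T i| ≥ τ`). By `|l j 0| ≤ ε`: `0 ≤ orb l ε j 0` and `orb l (-ε) j 0 ≤ 0` for all `j`
(induction, for the shifted sequence as well), so `|T i 0| ≤ ε < τ` and `0 ∈ I i`. On `I i` the
function `T i` is continuous without local extrema, hence injective (between two points with the
same value there is an extremum), hence strictly monotone or strictly antitone. By the periodicity
of `T i` the interval `I i` has length `≤ 2π`; at its end points `|T i| = τ`, and by monotony the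
two values are different, so `T i` maps `I i` onto `(-τ, τ)`. Let `z i` be the inverse (on
`(-τ, τ)`, and `0` elsewhere): continuous, strictly monotone or antitone as `T i`, `z i s = 0` for
`s = T i 0`.
(4) `Φ x = l i x + T i x` satisfies `T (i+1) (Φ x) = T i x`: with `t = T i x`,
`G (i+1) t (l i x + t) = l i (G i t x) + t = l i x + t` (use `l (i + N) = l i`). It is continuous,
`|Φ 0| ≤ 2 ε`, and the points `w` between `0` and `Φ 0` have `|T (i+1) w| ≤ 3 ε < τ` (by the
one-sided estimate in (1) between the smaller end point and `w`, and between `w` and the larger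
one, since `|T (i+1)| ≤ ε` at both ends). So `Φ (I i)` is connected, contains a point of
`I (i+1)`, and is contained in `{|T (i+1)| < τ}`, so `Φ (I i) ⊆ I (i+1)`; both `Φ (z i t)` and
`z (i+1) t` are points of `I (i+1)` with the value `t` of `T (i+1)`, so they are equal.
(5) Type. If `z i` is strictly increasing then `z (i+1) = l i (z i) + id` is too, and by induction
all `z (i+k)`, so all of them by periodicity; otherwise all are strictly decreasing.
`z (i + N) = z i` because the sequence `l (i + N + j) = l (i + j)` is the same: construct `z i`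
from `fun j => l (i + j)` by one function, or define it for `i < N` and use `i % N`. -/
def Bra : Prop :=
  ∀ (N : ℕ) (l : ℕ → ℝ → ℝ) (τ ε : ℝ), 0 < N → (∀ j, l (j + N) = l j) →
    (∀ j, Continuous (l j)) → (∀ j, StrictMono (l j)) →
    (∀ j θ, l j (θ + 2 * Real.pi) = l j θ + 2 * Real.pi) → 0 ≤ ε → 3 * ε < τ →
    (∀ j, |l j 0| ≤ ε) → (∀ i, NoTangency (fun t x => orb (fun j => l (i + j)) t N x) τ) →
    ∃ z : ℕ → ℝ → ℝ, Curve N l τ ε z

/-- Item TyM (EASY-MEDIUM). The curves of a loop are periodic orbits of `rot f t`, contracting or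
expanding according to the type.
Proof. Fix `t ∈ (-τ, τ)` and `i`, put `y = exp(i z_i(t)) . e i`. By `Loop.map` and `Curve.step`
`rot f t (exp(i z_j(t)) . e j) = exp(i z_(j+1)(t)) . e (j+1)`, which gives the first claim by
induction on `k`; for `k = N` use the periodicity. Let `E j = e (i+j)`, `L j = l (i+j)`,
`G t x = orb L t N x`: this is the return family of the loop `E, L` (`Dens.Chain.retMap`; the
shifted loop is a `Dens.Chain`), `orb L t j (z_i(t)) = z_(i+j)(t)`, so `G t (z_i(t)) = z_i(t)`, and by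
`Dens.orb_hasDerivAt` the derivative of `G t` at `z_i(t)` is `loopD Dm E L t N (z_i(t))
= prod_j Dm (exp(i z_(i+j)(t)) . e (i+j)) = pm Dm (rot f t) y N`. It is not `1` by `Ext.mult`.
Increasing type: for `t' > t`, `x = z_i(t') > z_i(t)` satisfies `G t x < G t' x = x`
(`G t' x ≥ G t x + (t' - t)`), and such `x` accumulate at `z_i(t)` (continuity), so the derivative
is `≤ 1` (`(G t x - G t z)/(x - z) < 1`). Decreasing type: for `t' < t`, `x = z_i(t') > z_i(t)`,
`G t x > G t' x = x`, so the derivative is `≥ 1`. -/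
def TyM : Prop :=
  ∀ (M : Type u) (B : Type v) [MetricSpace M] [MetricSpace B] [MulAction Circle M]
    (π : M → B) (A : B → B) (f f' : M → M) (ℒ : M → ℝ → ℝ) (Dm : M → ℝ) (τ : ℝ),
    Ext π A f f' ℒ Dm τ → ∀ (N : ℕ) (e : ℕ → M) (l : ℕ → ℝ → ℝ) (ε : ℝ) (z : ℕ → ℝ → ℝ),
      Loop f ℒ N e l → Curve N l τ ε z → ∀ t ∈ Ioo (-τ) τ, ∀ i : ℕ,
        (∀ k, (rot f t)^[k] (Circle.exp (z i t) • e i) = Circle.exp (z (i + k) t) • e (i + k)) ∧
        (rot f t)^[N] (Circle.exp (z i t) • e i) = Circle.exp (z i t) • e i ∧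
        ((∀ i, StrictMonoOn (z i) (Ioo (-τ) τ)) →
          pm Dm (rot f t) (Circle.exp (z i t) • e i) N < 1) ∧
        ((∀ i, StrictAntiOn (z i) (Ioo (-τ) τ)) →
          1 < pm Dm (rot f t) (Circle.exp (z i t) • e i) N)

/-- Item Nbr (MEDIUM). The return map `P` of the circle of a periodic point `a` of `f`, lifted so that
`0` corresponds to `a`: the zero `0` of `P x - x` and its two neighbours `l < 0 < r`.
Proof. `P = orb (fun j => ℒ (f^j a)) 0 n` belongs to the return family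
`G t = orb (fun j => ℒ (f^j a)) t n` (`Dens.retMap_periodic`, `RetMap.monoFam`), with `NoTangency` by
`Ext.notan`, and `P 0 = 0` (`Dens.orb_zero_zero`), `P (x + 2π) = P x + 2π`. Zeros of `P x - x` have
distance `≥ τ` (`Dens.separated_at` with `s = 0`). The derivative of `P` at `0` is
`m = pm Dm f a n ≠ 1`. Let `r` be the smallest zero in `[τ, 2π]` (closed set, nonempty because `2π`
is a zero and `2π ≥ τ` by the separation of `0` and `2π`), `l` the largest zero in `[-2π, -τ]`.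
There is no zero in `(l, r)` except `0`, and none in `(r, r + τ)`, `(l - τ, l)`. The sign of
`P x - x` is constant on each of the intervals `(l - τ, l)`, `(l, 0)`, `(0, r)`, `(r, r + τ)`
(intermediate value theorem) and changes at `l`, `0`, `r` (`NoTangency`: equal signs on both
sides would give a local extremum). On `(0, r)` the sign is that of `m - 1`
(`Dens.slope_signs`, `slope_signs'` in `Idx7.lean`). So for `m < 1`, `σ = 1`, and for `m > 1`,
`σ = -1` we get the three crossings. -/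
def Nbr : Prop :=
  ∀ (M : Type u) (B : Type v) [MetricSpace M] [MetricSpace B] [MulAction Circle M]
    (π : M → B) (A : B → B) (f f' : M → M) (ℒ : M → ℝ → ℝ) (Dm : M → ℝ) (τ : ℝ),
    Ext π A f f' ℒ Dm τ → ∀ (a : M) (n : ℕ), 0 < n → f^[n] a = a →
      ∃ σ l r : ℝ, ((σ = 1 ∧ pm Dm f a n < 1) ∨ (σ = -1 ∧ 1 < pm Dm f a n)) ∧ l ≤ -τ ∧ τ ≤ r ∧
        Cross (orb (fun j => ℒ (f^[j] a)) 0 n) σ 0 τ ∧
        Cross (orb (fun j => ℒ (f^[j] a)) 0 n) (-σ) l τ ∧
        Cross (orb (fun j => ℒ (f^[j] a)) 0 n) (-σ) r τ ∧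
        (∀ x ∈ Ioo l 0, 0 < σ * (orb (fun j => ℒ (f^[j] a)) 0 n x - x)) ∧
        ∀ x ∈ Ioo 0 r, σ * (orb (fun j => ℒ (f^[j] a)) 0 n x - x) < 0

/-- Item Con (MEDIUM). Continuation of a crossing of the return map of `a` to small rotations, with
its type.
Proof. We may assume `ρ < τ/8`. `G t = orb (fun j => ℒ (f^j a)) t n`. `σ (G 0 x - x) > 0` at
`x = x₀ - ρ` and `< 0` at `x = x₀ + ρ`; by continuity in `t` this holds for `|t| ≤ ε₁` too, some
`ε₁ ∈ (0, τ/4)`. Fix such a `t`. The intermediate value theorem gives a zero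
`x ∈ (x₀ - ρ, x₀ + ρ)` of `G t x - x`. Other zeros have distance `≥ τ - |t| > 2 ρ`
(`Dens.separated_at`), so `σ (G t y - y)` is positive on `[x₀ - ρ, x)` and negative on
`(x, x₀ + ρ]`. Let `b = exp(ix) . a`. Then `(rot f t)^n b = b` (`RetMap.map`), and the derivative of
`G t` at `x` is `loopD ... = pm Dm (rot f t) b n` (`(rot f t)^j b = exp(i orb .. t j x) . f^j a`,
`Dens.Chain.iterate`; `Dens.orb_hasDerivAt`), it is `≠ 1` by `Ext.mult`; for `σ = 1` it is `≤ 1`
(`(G t y - y) < 0` for `y > x` near `x`), for `σ = -1` it is `≥ 1`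
(`Dens.deriv_le_one`, `Dens.one_le_deriv` in `Idx7.lean` may help). -/
def Con : Prop :=
  ∀ (M : Type u) (B : Type v) [MetricSpace M] [MetricSpace B] [MulAction Circle M]
    (π : M → B) (A : B → B) (f f' : M → M) (ℒ : M → ℝ → ℝ) (Dm : M → ℝ) (τ : ℝ),
    Ext π A f f' ℒ Dm τ → ∀ (a : M) (n : ℕ), 0 < n → f^[n] a = a → ∀ σ x₀ : ℝ,
      Cross (orb (fun j => ℒ (f^[j] a)) 0 n) σ x₀ τ → ∀ ρ > 0, ∃ ε > 0, ∀ t : ℝ, |t| ≤ ε →
        ∃ x ∈ Ioo (x₀ - ρ) (x₀ + ρ),
          (rot f t)^[n] (Circle.exp x • a) = Circle.exp x • a ∧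
          (σ = 1 → pm Dm (rot f t) (Circle.exp x • a) n < 1) ∧
          (σ = -1 → 1 < pm Dm (rot f t) (Circle.exp x • a) n)

/-- Item Dri (EASY-MEDIUM). Drift between the neighbours of a contracting or expanding fixed point
of a map `P` of the line.
Proof. Put `g x = x - P x`. Case `σ = 1`: `g > 0` on `(0, r)`, `g < 0` on `(l, 0)`; case `σ = -1`:
the opposite signs. By compactness there is `c > 0` with `|g| ≥ c` on `[ρ/2, r - ρ]` and
`[l + ρ, -ρ/2]` (if these are nonempty). `δ = min (c/2) (ρ/2)`, `K` a natural number with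
`K c / 2 > r - l`. `P 0 = 0` by continuity and the signs, `P` is monotone.
`σ = 1`: (i) `|x m| ≤ ρ` implies `|x (m+1)| ≤ ρ`: for `x m ∈ [0, ρ]`,
`0 ≤ P (x m) ≤ x m`, and `P (x m) ≤ x m - c` if `x m ≥ ρ/2`, so `x (m+1) ≤ max (ρ/2 + δ) (ρ - c + δ)
≤ ρ` and `x (m+1) ≥ -δ ≥ -ρ`; the same for negative `x m`. (ii) If `x m > ρ` then
`-ρ ≤ x (m+1) ≤ x m - c + δ ≤ x m - c/2`; if `x m < -ρ` then `x m + c/2 ≤ x (m+1) ≤ ρ`. So if
`|x m| > ρ` for all `m ≤ K` (`≤ m₁`) the sequence moves by `≥ c/2` in a fixed direction `K` times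
inside `[l, r]`, impossible; by (i) `|x m| ≤ ρ` for all `m ≥ K`.
`σ = -1`: if `x m > ρ` for some `m` with `m + K ≤ m₁`, then
`x (m+1) ≥ P (x m) - δ ≥ x m + c - δ ≥ x m + c/2`, and so on for `K` steps (`x` stays in
`[ρ, r - ρ]`), impossible; the same for `x m < -ρ`. -/
def Dri : Prop :=
  ∀ (P : ℝ → ℝ) (σ l r ρ : ℝ), Continuous P → Monotone P → (σ = 1 ∨ σ = -1) → l < 0 → 0 < r →
    0 < ρ → (∀ x ∈ Ioo l 0, 0 < σ * (P x - x)) → (∀ x ∈ Ioo 0 r, σ * (P x - x) < 0) →
    ∃ δ > 0, ∃ K : ℕ, ∀ (m₁ : ℕ) (x : ℕ → ℝ), (∀ m < m₁, |x (m + 1) - P (x m)| ≤ δ) →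
      (∀ m ≤ m₁, x m ∈ Icc (l + ρ) (r - ρ)) → ∀ m, K ≤ m → m + K ≤ m₁ → |x m| ≤ ρ

/-- Item Mid (MEDIUM). A loop which follows the orbit of the periodic point `a` of `f` for a long
time: in the middle of this time the curve at the parameter `0` is close to `0`.
Proof. Take `η` from the conclusion of `UIS` (hypothesis `hU`), `σ, l, r` from `Nbr`. Let
`ρ₁ = min ρ (τ/4)` and small enough that `dist (exp(ix) . y) (exp(ix') . y) < η/2` if
`|x - x'| ≤ 2 ρ₁` (`Dens.exists_rot_close`, `Dens.exists_smul_close`); `δ₁` with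
`dist y y' < δ₁ → dist (exp(ix) . y) (exp(ix) . y') < η/2` (`exists_smul_close`). `Con` for
`(σ, 0)`, `(-σ, l)`, `(-σ, r)` and `ρ₁` gives `ε₁`; `ε = min ε₁ (τ/4)`. `Dri` for
`P = orb (fun j => ℒ (f^j a)) 0 n` and `ρ₁` gives `δ₂`, `K`. `δ₃ > 0` with
`|P_(±δ₃) x - P x| ≤ δ₂` for all `x`, where `P_t = orb (fun j => ℒ (f^j a)) t n` (uniform
continuity: `(t, x) ↦ P_t x - x` is continuous and `2π`-periodic in `x`; or: `P_t x` is continuous
on the compact set `[-1,1] × [l, r]`, which is enough since `x ∈ [l, r]` below).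
`δ = min δ₁ δ₃`.
Let `e, l, z, i0, k₁` be given, `x m = z (i0 + m n) 0` for `m ≤ k₁`, `x (m+1) = orb (shifted l) 0 n
(x m)` by `Curve.step` (at `t = 0`), and `orb_sandwich` with `|l (i0 + m n + j) θ - ℒ (f^j a) θ| ≤ δ`
(`f^(m n + j) a = f^j a`) gives `P_(-δ) (x m) ≤ x (m+1) ≤ P_δ (x m)`, so
`|x (m+1) - P (x m)| ≤ δ₂` (monotony in `t`).
Claim A: the type of the curve is that of `a`: increasing if `σ = 1`, decreasing if `σ = -1`. If
not, let `|s| ≤ ε'` (`≤ ε`) with `z (i0) s = 0`; by `TyM` `e i0 = exp(0) . e i0` is a periodic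
point of `rot f s` of the type opposite to that of `a`, and by `Con` at `0` there is
`x' ∈ (-ρ₁, ρ₁)` with `exp(ix') . a` periodic for `rot f s` of the type of `a`. Their distance is
`≤ dist (e i0) a + dist a (exp(ix') . a) < δ₁' + η/2`; take `δ ≤ η/2` as well: `< η`, contradicting
`hU` (`|s| ≤ τ/2`).
Claim B: `l + ρ₁ ≤ x m ≤ r - ρ₁` for `m ≤ k₁`. If `x m > r - ρ₁` (`> 0`), let `i = i0 + m n`,
`z i s = 0`, `|s| ≤ ε`; by the intermediate value theorem there is `t₀` between `0` and `s` with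
`z i t₀ = r - ρ₁`. By `TyM` `y = exp(i(r-ρ₁)) . e i` is periodic for `rot f t₀` with the type of
`a`, and by `Con` for `(-σ, r)` there is `x' ∈ (r - ρ₁, r + ρ₁)` such that `exp(ix') . a` is periodic
for `rot f t₀` with the opposite type; their distance is
`≤ dist (exp(i(r-ρ₁)) . e i) (exp(i(r-ρ₁)) . a) + dist (exp(i(r-ρ₁)) . a) (exp(ix') . a) < η`,
contradicting `hU`. The same at `l`.
Now `Dri` gives `|x m| ≤ ρ₁ ≤ ρ` for `K ≤ m`, `m + K ≤ k₁`. -/
def Mid : Prop :=
  TyM.{u, v} → Nbr.{u, v} → Con.{u, v} → Dri →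
  ∀ (M : Type u) (B : Type v) [MetricSpace M] [CompactSpace M] [MetricSpace B] [MulAction Circle M]
    (π : M → B) (A : B → B) (f f' : M → M) (ℒ : M → ℝ → ℝ) (Dm : M → ℝ) (τ : ℝ),
    Ext π A f f' ℒ Dm τ →
    -- the conclusion of UIS
    (∃ η > 0, ∀ s : ℝ, |s| ≤ τ / 2 → ∀ (a b : M) (n n' : ℕ), 0 < n → 0 < n' →
      (rot f s)^[n] a = a → (rot f s)^[n'] b = b → pm Dm (rot f s) a n < 1 →
      1 < pm Dm (rot f s) b n' → η ≤ dist a b) →
    ∀ (a : M) (n : ℕ), 0 < n → f^[n] a = a → ∀ ρ > 0, ∃ ε > 0, ∃ δ > 0, ∃ K : ℕ,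
      ∀ (N : ℕ) (e : ℕ → M) (l : ℕ → ℝ → ℝ) (ε' : ℝ) (z : ℕ → ℝ → ℝ), ε' ≤ ε →
        Loop f ℒ N e l → Curve N l τ ε' z → ∀ i0 k₁ : ℕ,
        (∀ m ≤ k₁, dist (e (i0 + m * n)) a < δ) →
        (∀ j < k₁ * n, ∀ θ, |l (i0 + j) θ - ℒ (f^[j] a) θ| ≤ δ) →
        ∀ m, K ≤ m → m + K ≤ k₁ → |z (i0 + m * n) 0| ≤ ρ

/-- Item CyP (EASY-MEDIUM). A cyclic pseudo-orbit which follows `a` and `b` for long times.
Proof. Let `c₁` be the chain from `a` to `b` with `n₁ > 0` steps, `c₂` the chain from `b` to `a` with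
`n₂ > 0` steps. `N₁ = k n`, `N₂ = N₁ + n₁`, `N₃ = N₂ + k' n'`, `N = N₃ + n₂`. For `j < N` put
`x j = f^j a` if `j < N₁`, `c₁ (j - N₁)` if `N₁ ≤ j < N₂`, `f^(j - N₂) b` if `N₂ ≤ j < N₃`,
`c₂ (j - N₃)` if `N₃ ≤ j < N`, and `y j = x (j % N)`. At the junctions the values agree:
`f^N₁ a = a = c₁ 0`, `c₁ n₁ = b`, `f^(k' n') b = b = c₂ 0`, `c₂ n₂ = a = y N`. So every jump is `0`
or a jump of `c₁` or `c₂`, `y i = f^i a` for `i ≤ N₁`, and `y (N₂ + i) = f^i b` for `i ≤ k' n'`
(`i₁ = N₂`). (`N > 0` as `n₁ > 0`.) -/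
def CyP : Prop :=
  ∀ (M : Type u) [MetricSpace M] (f : M → M) (δ : ℝ) (a b : M) (n n' k k' : ℕ), 0 < δ → 0 < n →
    0 < n' → f^[n] a = a → f^[n'] b = b → TH.Chain f δ a b → TH.Chain f δ b a →
    ∃ (N : ℕ) (y : ℕ → M), 0 < N ∧ (∀ j, y (j + N) = y j) ∧
      (∀ j, dist (f (y j)) (y (j + 1)) < δ) ∧ (∀ i ≤ k * n, y i = f^[i] a) ∧
      ∃ i₁, ∀ i ≤ k' * n', y (i₁ + i) = f^[i] b

/-- Item Two (MEDIUM). Two periodic points of `f` which are joined by chains with arbitrarily small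
jumps in both directions are joined by periodic orbits of `f`.
Proof. Let `ρ₂` with `dist (exp(ix) . y) y < ρ/2` if `|x| ≤ ρ₂` (`Dens.exists_rot_close`). `Mid`
(hypothesis `hMid` of this item is its conclusion) for `a`, `ρ₂` and for `b`, `ρ₂` gives
`ε_a, δ_a, K_a`, `ε_b, δ_b, K_b`. `ε = min` of `ε_a, ε_b, 1/2, τ/4`, `δ = min` of
`δ_a, δ_b, ρ/2`. `ShU` for `ε` gives `η`, `ℓ`; `ℓ₀ = ℓ δ`. Put `k = 2 ℓ₀ + 2 K_a`,
`k' = 2 ℓ₀ + 2 K_b`. `CyP` with `δ := η` gives `N, y, i₁`, and `ShU` with `s = 0` (`rot f 0 = f`) the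
loop `e, l` with `|l j 0| ≤ ε`. The hypotheses of `Bra` hold with this `ε` (continuity, monotony,
degree one of `l j` from `Loop.form` and `NLift`; `NoTangency` from `Ext.notan` and
`Dens.Chain.retMap` for the shifted loop, as in `TyM`), so there is a `Curve`. `Mid` for `a`:
`i0 = ℓ₀ n`, `k₁ = 2 K_a`: for `m ≤ k₁` the time `i = ℓ₀ n + m n` satisfies `ℓ₀ ≤ i` and
`i + ℓ₀ ≤ (2 ℓ₀ + 2 K_a) n = k n` (`n ≥ 1`), so `dist (e i) (f^i a) < δ`, `f^i a = a`; the lifts:
`i = ℓ₀ n + j`, `j < k₁ n`, `f^(ℓ₀ n + j) a = f^j a`. So `|z i 0| ≤ ρ₂` for `i = ℓ₀ n + K_a n`, and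
`x = exp(i z_0(0)) . e 0` satisfies `f^N x = x`, `f^i x = exp(i z_i(0)) . e i` (`TyM` at `t = 0`),
`dist (f^i x) a ≤ ρ/2 + dist (e i) a < ρ`. The same for `b` with `i0 = i₁ + ℓ₀ n'`. -/
def Two : Prop :=
  ShU.{u, v} → Bra → TyM.{u, v} → CyP.{u} →
  ∀ (M : Type u) (B : Type v) [MetricSpace M] [CompactSpace M] [MetricSpace B] [CompactSpace B]
    [MulAction Circle M]
    (π : M → B) (A : B → B) (f f' : M → M) (ℒ : M → ℝ → ℝ) (Dm : M → ℝ) (τ : ℝ),
    Ext π A f f' ℒ Dm τ →
    -- the conclusion of Mid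
    (∀ (a : M) (n : ℕ), 0 < n → f^[n] a = a → ∀ ρ > 0, ∃ ε > 0, ∃ δ > 0, ∃ K : ℕ,
      ∀ (N : ℕ) (e : ℕ → M) (l : ℕ → ℝ → ℝ) (ε' : ℝ) (z : ℕ → ℝ → ℝ), ε' ≤ ε →
        Loop f ℒ N e l → Curve N l τ ε' z → ∀ i0 k₁ : ℕ,
        (∀ m ≤ k₁, dist (e (i0 + m * n)) a < δ) →
        (∀ j < k₁ * n, ∀ θ, |l (i0 + j) θ - ℒ (f^[j] a) θ| ≤ δ) →
        ∀ m, K ≤ m → m + K ≤ k₁ → |z (i0 + m * n) 0| ≤ ρ) →
    ∀ a ∈ periodicPts f, ∀ b ∈ periodicPts f, (∀ δ > 0, TH.Chain f δ a b) →
      (∀ δ > 0, TH.Chain f δ b a) → ∀ ρ > 0, ∃ x ∈ periodicPts f,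
        ∃ i j : ℕ, dist (f^[i] x) a < ρ ∧ dist (f^[j] x) b < ρ

/-- Item NCy (EASY-MEDIUM, a variant of `TH.prf_NoCyc`, file `TH/I_NoCyc.lean`). The conclusion of
`Two` excludes cycles.
Proof. The proof of `prf_NoCyc` with another end. As there, from a cycle one gets two pieces `S 0`,
`S 1`, disjoint, with `Chain F δ a b` for all `δ > 0`, `a ∈ S 0`, `b ∈ S 1`, and `Chain F δ b a` as
well. `S 0 = U ∩ Omega F`, `S 1 = V ∩ Omega F` with `U`, `V` open. As `Omega F` is the closure of the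
periodic points and `S 0` is not empty, there is a periodic point `a ∈ U`; periodic points are in
`Omega F`, so `a ∈ S 0`; the same for `b ∈ S 1`. Let the balls of radius `ρ` around `a`, `b` be
contained in `U`, `V`. The hypothesis gives a periodic point `x` with `F^i x ∈ U`, `F^j x ∈ V`; both
are periodic, hence in `Omega F`, so `F^i x ∈ S 0`, `F^j x ∈ S 1`. `S 0` and `S 1` are invariant and
`x` is periodic, so a common iterate of both is in `S 0` and `S 1` (`F^(i + k) x` with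
`i + k = j + m N`, `N` the period): contradiction to disjointness. (`NoCycAux` has all lemmas:
`chain_in`, `chain_stable`, `chain_unstable`, `piece_sub`, `iter_mem`.) -/
def NCy : Prop :=
  TH.ChTr.{u} → TH.Rev.{u} →
  ∀ (M : Type u) [MetricSpace M] [CompactSpace M] (F F' : M → M), Continuous F → Continuous F' →
    (∀ x, F' (F x) = x) → (∀ x, F (F' x) = x) → Omega F = closure (periodicPts F) →
    (∀ a ∈ periodicPts F, ∀ b ∈ periodicPts F, (∀ δ > 0, TH.Chain F δ a b) →
      (∀ δ > 0, TH.Chain F δ b a) → ∀ ρ > 0, ∃ x ∈ periodicPts F,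
        ∃ i j : ℕ, dist (F^[i] x) a < ρ ∧ dist (F^[j] x) b < ρ) →
    NoCycleProperty F F'

end Pool.Agent.OmegaStability.NC
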